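import Mathlib
import Pool.Agent.R528.RM.Basic

/-! Adapted random sets: a multiplicative lower tail bound for predictable candidates, and a bound for the
probability that all members of a finite increasing sequence are chosen. -/

set_option autoImplicit false
set_option linter.unusedSectionVars false

namespace Pool.Agent.D0H16.CC

open MeasureTheory Filter Set Pool.Agent.R528.RM
open scoped Topology

variable {Ω : Type} {m0 : MeasurableSpace Ω} {μ : Measure Ω} [IsProbabilityMeasure μ]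
  {ℱ : Filtration ℕ m0} {A : ℕ → Set Ω}

lemma pull_A (hA : ∀ n, MeasurableSet[ℱ n] (A n)) (k : ℕ) {f : Ω → ℝ}
    (hf : StronglyMeasurable[ℱ k] f) (c : ℝ) (hfc : ∀ᵐ ω ∂μ, ‖f ω‖ ≤ c) :
    ∫ ω, f ω * (A (k + 1)).indicator (fun _ => (1 : ℝ)) ω ∂μ = ∫ ω, f ω * dens μ ℱ A k ω ∂μ := by
  have hA' : MeasurableSet (A (k + 1)) := ℱ.le _ _ (hA _)
  have hg : Integrable ((A (k + 1)).indicator (fun _ => (1 : ℝ))) μ := (integrable_const _).indicator hA'
  have h1 := condExp_stronglyMeasurable_mul_of_bound (ℱ.le k) hf hg c hfc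
  have h2 := integral_condExp (μ := μ) (ℱ.le k) (f := f * (A (k + 1)).indicator (fun _ => (1 : ℝ)))
  have h3 : ∫ ω, f ω * (A (k + 1)).indicator (fun _ => (1 : ℝ)) ω ∂μ =
      ∫ ω, (f * (A (k + 1)).indicator (fun _ => (1 : ℝ))) ω ∂μ := rfl
  rw [h3, ← h2]
  exact integral_congr_ae h1

lemma dens01 (hA : ∀ n, MeasurableSet[ℱ n] (A n)) (k : ℕ) :
    ∀ᵐ ω ∂μ, 0 ≤ dens μ ℱ A k ω ∧ dens μ ℱ A k ω ≤ 1 := by
  have hA' : MeasurableSet (A (k + 1)) := ℱ.le _ _ (hA _)
  have hg : Integrable ((A (k + 1)).indicator (fun _ => (1 : ℝ))) μ := (integrable_const _).indicator hA'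
  have h0 : ∀ᵐ ω ∂μ, 0 ≤ dens μ ℱ A k ω :=
    condExp_nonneg (Eventually.of_forall fun ω => indicator_nonneg (fun _ _ => zero_le_one) ω)
  have h1 : (A (k + 1)).indicator (fun _ => (1 : ℝ)) ≤ᵐ[μ] fun _ => 1 :=
    Eventually.of_forall fun ω => indicator_le_self' (fun _ _ => zero_le_one) ω
  have h2 := condExp_mono (m := ℱ k) hg (integrable_const (1 : ℝ)) h1
  filter_upwards [h0, h2] with ω h0 h2
  refine ⟨h0, ?_⟩
  rwa [condExp_const (ℱ.le k)] at h2

/-- the number of the candidates `n < N` (times `t n`, candidate if `B n`) which are chosen -/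
noncomputable def XX (A : ℕ → Set Ω) (t : ℕ → ℕ) (B : ℕ → Set Ω) (N : ℕ) (ω : Ω) : ℝ :=
  ∑ n ∈ Finset.range N, (B n).indicator (fun _ => (1 : ℝ)) ω * (A (t n + 1)).indicator (fun _ => (1 : ℝ)) ω

/-- its compensator -/
noncomputable def YY (μ : Measure Ω) (ℱ : Filtration ℕ m0) (A : ℕ → Set Ω) (t : ℕ → ℕ) (B : ℕ → Set Ω)
    (N : ℕ) (ω : Ω) : ℝ :=
  ∑ n ∈ Finset.range N, (B n).indicator (fun _ => (1 : ℝ)) ω * dens μ ℱ A (t n) ω

section

variable {t : ℕ → ℕ} {B : ℕ → Set Ω}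

lemma ind_sm {C : Set Ω} {m : ℕ} (hC : MeasurableSet[ℱ m] C) :
    StronglyMeasurable[ℱ m] (C.indicator (fun _ => (1 : ℝ))) :=
  (@stronglyMeasurable_const _ _ (ℱ m) _ _).indicator hC

lemma XX_meas (hA : ∀ n, MeasurableSet[ℱ n] (A n)) (ht : StrictMono t)
    (hB : ∀ n, MeasurableSet[ℱ (t n)] (B n)) (N : ℕ) :
    StronglyMeasurable[ℱ (t N)] (XX A t B N) := by
  have h1 : XX A t B N = ∑ n ∈ Finset.range N, ((B n).indicator (fun _ => (1 : ℝ)) *
      (A (t n + 1)).indicator (fun _ => (1 : ℝ))) := by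
    funext ω
    simp [XX]
  rw [h1]
  refine Finset.stronglyMeasurable_sum _ fun n hn => ?_
  have hn' := ht (Finset.mem_range.1 hn)
  have h2 : StronglyMeasurable[ℱ (t N)] ((B n).indicator (fun _ => (1 : ℝ))) :=
    ind_sm (ℱ.mono (by omega) _ (hB n))
  have h3 : StronglyMeasurable[ℱ (t N)] ((A (t n + 1)).indicator (fun _ => (1 : ℝ))) :=
    ind_sm (ℱ.mono (by omega) _ (hA (t n + 1)))
  exact @StronglyMeasurable.mul _ _ _ _ (ℱ (t N)) _ _ _ h2 h3

lemma YY_meas (ht : StrictMono t)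
    (hB : ∀ n, MeasurableSet[ℱ (t n)] (B n)) (N : ℕ) :
    StronglyMeasurable[ℱ (t N)] (YY μ ℱ A t B N) := by
  have h1 : YY μ ℱ A t B N = ∑ n ∈ Finset.range N, ((B n).indicator (fun _ => (1 : ℝ)) *
      dens μ ℱ A (t n)) := by
    funext ω
    simp [YY]
  rw [h1]
  refine Finset.stronglyMeasurable_sum _ fun n hn => ?_
  have hn' := ht (Finset.mem_range.1 hn)
  have h2 : StronglyMeasurable[ℱ (t N)] ((B n).indicator (fun _ => (1 : ℝ))) :=
    ind_sm (ℱ.mono (by omega) _ (hB n))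
  have h3 : StronglyMeasurable[ℱ (t N)] (dens μ ℱ A (t n)) := (dens_meas _).mono (ℱ.mono (by omega))
  exact @StronglyMeasurable.mul _ _ _ _ (ℱ (t N)) _ _ _ h2 h3

lemma ind01 (C : Set Ω) (ω : Ω) : C.indicator (fun _ => (1 : ℝ)) ω = 0 ∨ C.indicator (fun _ => (1 : ℝ)) ω = 1 := by
  by_cases h : ω ∈ C
  · right; simp [h]
  · left; simp [h]

lemma XX_nonneg (N : ℕ) (ω : Ω) : 0 ≤ XX A t B N ω := by
  unfold XX
  refine Finset.sum_nonneg fun n _ => mul_nonneg ?_ ?_
  · exact indicator_nonneg (fun _ _ => zero_le_one) _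
  · exact indicator_nonneg (fun _ _ => zero_le_one) _

lemma YY_le (hA : ∀ n, MeasurableSet[ℱ n] (A n)) : ∀ᵐ ω ∂μ, ∀ N : ℕ, 0 ≤ YY μ ℱ A t B N ω ∧
    YY μ ℱ A t B N ω ≤ N := by
  have h1 : ∀ᵐ ω ∂μ, ∀ n, 0 ≤ dens μ ℱ A n ω ∧ dens μ ℱ A n ω ≤ 1 := ae_all_iff.2 fun n => dens01 hA n
  filter_upwards [h1] with ω hω N
  constructor
  · refine Finset.sum_nonneg fun n _ => mul_nonneg ?_ (hω _).1
    exact indicator_nonneg (fun _ _ => zero_le_one) _
  · refine (Finset.sum_le_card_nsmul _ _ 1 fun n _ => ?_).trans (by simp)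
    refine mul_le_one₀ (indicator_le_self' (fun _ _ => zero_le_one) ω) (hω _).1 (hω _).2

theorem mgf (hA : ∀ n, MeasurableSet[ℱ n] (A n)) (ht : StrictMono t)
    (hB : ∀ n, MeasurableSet[ℱ (t n)] (B n)) {lam : ℝ} (hlam : 0 ≤ lam) (N : ℕ) :
    Integrable (fun ω => Real.exp (-(lam * XX A t B N ω) + (1 - Real.exp (-lam)) * YY μ ℱ A t B N ω)) μ ∧
    ∫ ω, Real.exp (-(lam * XX A t B N ω) + (1 - Real.exp (-lam)) * YY μ ℱ A t B N ω) ∂μ ≤ 1 := by
  set γ : ℝ := 1 - Real.exp (-lam) with hγ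
  have hγ0 : 0 ≤ γ := by
    have : Real.exp (-lam) ≤ 1 := Real.exp_le_one_iff.2 (by linarith)
    linarith
  have hYle := YY_le (μ := μ) (ℱ := ℱ) (t := t) (B := B) hA
  have hbd : ∀ N : ℕ, ∀ᵐ ω ∂μ, ‖Real.exp (-(lam * XX A t B N ω) + γ * YY μ ℱ A t B N ω)‖ ≤ Real.exp (γ * N) := by
    intro N
    filter_upwards [hYle] with ω hω
    rw [Real.norm_eq_abs, abs_of_pos (Real.exp_pos _)]
    apply Real.exp_le_exp.2
    have h1 := mul_nonneg hlam (XX_nonneg (A := A) (t := t) (B := B) N ω)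
    have h2 := mul_le_mul_of_nonneg_left (hω N).2 hγ0
    linarith
  have hsm : ∀ N : ℕ, StronglyMeasurable[ℱ (t N)]
      (fun ω => Real.exp (-(lam * XX A t B N ω) + γ * YY μ ℱ A t B N ω)) := by
    intro N
    have h1 := XX_meas (A := A) hA ht hB N
    have h2 := YY_meas (μ := μ) (A := A) ht hB N
    have h3 : StronglyMeasurable[ℱ (t N)] (fun ω => -(lam * XX A t B N ω) + γ * YY μ ℱ A t B N ω) :=
      @StronglyMeasurable.add _ _ _ _ (ℱ (t N)) _ _ _ ((h1.const_mul lam).neg) (h2.const_mul γ)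
    exact Real.continuous_exp.comp_stronglyMeasurable h3
  have hint : ∀ N : ℕ, Integrable (fun ω => Real.exp (-(lam * XX A t B N ω) + γ * YY μ ℱ A t B N ω)) μ :=
    fun N => Integrable.of_bound ((hsm N).mono (ℱ.le _)).aestronglyMeasurable _ (hbd N)
  refine ⟨hint N, ?_⟩
  induction N with
  | zero => simp [XX, YY]
  | succ N ih =>
    set F : Ω → ℝ := fun ω => Real.exp (-(lam * XX A t B N ω) + γ * YY μ ℱ A t B N ω) with hF
    set b : Ω → ℝ := (B N).indicator (fun _ => (1 : ℝ)) with hb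
    set a : Ω → ℝ := (A (t N + 1)).indicator (fun _ => (1 : ℝ)) with ha
    set D : Ω → ℝ := dens μ ℱ A (t N) with hD
    have hbsm : StronglyMeasurable[ℱ (t N)] b := ind_sm (hB N)
    have hDsm : StronglyMeasurable[ℱ (t N)] D := dens_meas _
    set G : Ω → ℝ := fun ω => F ω * Real.exp (γ * (b ω * D ω)) with hG
    have hGsm : StronglyMeasurable[ℱ (t N)] G := by
      refine @StronglyMeasurable.mul _ _ _ _ (ℱ (t N)) _ _ _ (hsm N) ?_
      refine Real.continuous_exp.comp_stronglyMeasurable ?_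
      refine StronglyMeasurable.const_mul ?_ γ
      exact @StronglyMeasurable.mul _ _ _ _ (ℱ (t N)) _ _ _ hbsm hDsm
    have hGbsm : StronglyMeasurable[ℱ (t N)] (fun ω => G ω * b ω) :=
      @StronglyMeasurable.mul _ _ _ _ (ℱ (t N)) _ _ _ hGsm hbsm
    have h01 := dens01 (μ := μ) (ℱ := ℱ) hA (t N)
    have hb01 : ∀ ω, b ω = 0 ∨ b ω = 1 := fun ω => ind01 _ _
    have ha01 : ∀ ω, a ω = 0 ∨ a ω = 1 := fun ω => ind01 _ _
    have hGbd : ∀ᵐ ω ∂μ, ‖G ω‖ ≤ Real.exp (γ * N) * Real.exp γ := by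
      filter_upwards [hbd N, h01] with ω h1 h2
      rw [hG]
      simp only
      rw [norm_mul]
      refine mul_le_mul h1 ?_ (norm_nonneg _) (Real.exp_pos _).le
      rw [Real.norm_eq_abs, abs_of_pos (Real.exp_pos _)]
      apply Real.exp_le_exp.2
      have : b ω * D ω ≤ 1 := by
        rcases hb01 ω with h | h <;> rw [h]
        · simp
        · rw [one_mul]; exact h2.2
      nlinarith
    have hGbbd : ∀ᵐ ω ∂μ, ‖G ω * b ω‖ ≤ Real.exp (γ * N) * Real.exp γ := by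
      filter_upwards [hGbd] with ω h1
      rw [norm_mul]
      have : ‖b ω‖ ≤ 1 := by
        rcases hb01 ω with h | h <;> rw [h] <;> simp
      calc ‖G ω‖ * ‖b ω‖ ≤ (Real.exp (γ * N) * Real.exp γ) * 1 :=
            mul_le_mul h1 this (norm_nonneg _) (by positivity)
        _ = _ := mul_one _
    have hpull := pull_A (μ := μ) hA (t N) hGbsm _ hGbbd
    have e1 : ∀ ω, Real.exp (-(lam * XX A t B (N + 1) ω) + γ * YY μ ℱ A t B (N + 1) ω) =
        G ω - γ * (G ω * b ω * a ω) := by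
      intro ω
      have hX : XX A t B (N + 1) ω = XX A t B N ω + b ω * a ω := by
        unfold XX; rw [Finset.sum_range_succ]
      have hY : YY μ ℱ A t B (N + 1) ω = YY μ ℱ A t B N ω + b ω * D ω := by
        unfold YY; rw [Finset.sum_range_succ]
      rw [hX, hY]
      have e2 : -(lam * (XX A t B N ω + b ω * a ω)) + γ * (YY μ ℱ A t B N ω + b ω * D ω) =
          (-(lam * XX A t B N ω) + γ * YY μ ℱ A t B N ω) + γ * (b ω * D ω) + -(lam * (b ω * a ω)) := by ring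
      rw [e2, Real.exp_add, Real.exp_add]
      have e3 : Real.exp (-(lam * (b ω * a ω))) = 1 - γ * (b ω * a ω) := by
        rcases hb01 ω with h | h <;> rcases ha01 ω with h' | h' <;> rw [h, h'] <;> simp [hγ]
      rw [e3]
      simp only [hG, hF]
      ring
    have hGam : AEStronglyMeasurable G μ := (hGsm.mono (ℱ.le _)).aestronglyMeasurable
    have hGbam : AEStronglyMeasurable (fun ω => G ω * b ω) μ := (hGbsm.mono (ℱ.le _)).aestronglyMeasurable
    have iG : Integrable G μ := Integrable.of_bound hGam _ hGbd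
    have haam : AEStronglyMeasurable a μ :=
      ((ind_sm (hA (t N + 1))).mono (ℱ.le _)).aestronglyMeasurable
    have iGba : Integrable (fun ω => G ω * b ω * a ω) μ := by
      refine Integrable.of_bound (hGbam.mul haam) (Real.exp (γ * N) * Real.exp γ) ?_
      filter_upwards [hGbbd] with ω h1
      rw [norm_mul]
      have : ‖a ω‖ ≤ 1 := by
        rcases ha01 ω with h | h <;> rw [h] <;> simp
      calc ‖G ω * b ω‖ * ‖a ω‖ ≤ (Real.exp (γ * N) * Real.exp γ) * 1 :=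
            mul_le_mul h1 this (norm_nonneg _) (by positivity)
        _ = _ := mul_one _
    have hDam : AEStronglyMeasurable D μ := (hDsm.mono (ℱ.le _)).aestronglyMeasurable
    have iGbD : Integrable (fun ω => G ω * b ω * D ω) μ := by
      refine Integrable.of_bound (hGbam.mul hDam) (Real.exp (γ * N) * Real.exp γ) ?_
      filter_upwards [hGbbd, h01] with ω h1 h2
      rw [norm_mul]
      have : ‖D ω‖ ≤ 1 := by
        rw [Real.norm_eq_abs, abs_of_nonneg h2.1]; exact h2.2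
      calc ‖G ω * b ω‖ * ‖D ω‖ ≤ (Real.exp (γ * N) * Real.exp γ) * 1 :=
            mul_le_mul h1 this (norm_nonneg _) (by positivity)
        _ = _ := mul_one _
    calc ∫ ω, Real.exp (-(lam * XX A t B (N + 1) ω) + γ * YY μ ℱ A t B (N + 1) ω) ∂μ
        = ∫ ω, (G ω - γ * (G ω * b ω * a ω)) ∂μ := by simp_rw [e1]
      _ = ∫ ω, G ω ∂μ - γ * ∫ ω, G ω * b ω * a ω ∂μ := by
          rw [integral_sub iG (iGba.const_mul γ), integral_const_mul]
      _ = ∫ ω, G ω ∂μ - γ * ∫ ω, G ω * b ω * D ω ∂μ := by rw [hpull]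
      _ = ∫ ω, (G ω - γ * (G ω * b ω * D ω)) ∂μ := by
          rw [integral_sub iG (iGbD.const_mul γ), integral_const_mul]
      _ ≤ ∫ ω, F ω ∂μ := by
          refine integral_mono_ae (iG.sub (iGbD.const_mul γ)) (hint N) ?_
          filter_upwards with ω
          simp only [hG, Pi.sub_apply]
          have h3 : 1 - γ * (b ω * D ω) ≤ Real.exp (-(γ * (b ω * D ω))) := by
            have := Real.add_one_le_exp (-(γ * (b ω * D ω)))
            linarith
          have h4 : 0 < F ω := Real.exp_pos _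
          have h5 : Real.exp (γ * (b ω * D ω)) * (1 - γ * (b ω * D ω)) ≤ 1 := by
            calc _ ≤ Real.exp (γ * (b ω * D ω)) * Real.exp (-(γ * (b ω * D ω))) :=
                  mul_le_mul_of_nonneg_left h3 (Real.exp_pos _).le
              _ = 1 := by rw [← Real.exp_add]; simp
          calc F ω * Real.exp (γ * (b ω * D ω)) - γ * (F ω * Real.exp (γ * (b ω * D ω)) * b ω * D ω)
              = F ω * (Real.exp (γ * (b ω * D ω)) * (1 - γ * (b ω * D ω))) := by ring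
            _ ≤ F ω * 1 := mul_le_mul_of_nonneg_left h5 h4.le
            _ = F ω := mul_one _
      _ ≤ 1 := ih

/-- the lower tail: many candidates, few of them chosen -/
theorem tail (hA : ∀ n, MeasurableSet[ℱ n] (A n)) (ht : StrictMono t)
    (hB : ∀ n, MeasurableSet[ℱ (t n)] (B n)) {η y : ℝ} (hη : 0 ≤ η) (hη1 : η ≤ 1) (N : ℕ) (hy : 0 ≤ y) :
    μ.real {ω | XX A t B N ω ≤ (1 - η) * YY μ ℱ A t B N ω ∧ y ≤ YY μ ℱ A t B N ω} ≤
      Real.exp (-(η ^ 2 * y / 2)) := by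
  obtain ⟨hint, hle⟩ := mgf (μ := μ) hA ht hB hη N
  have h2 := mul_meas_ge_le_integral_of_nonneg (μ := μ) (Eventually.of_forall fun ω =>
    (Real.exp_pos (-(η * XX A t B N ω) + (1 - Real.exp (-η)) * YY μ ℱ A t B N ω)).le)
    hint (Real.exp (η ^ 2 * y / 2))
  have hexp : η - η ^ 2 / 2 ≤ 1 - Real.exp (-η) := by
    have h3 : Real.exp (-η) ≤ 1 - η + η ^ 2 / 2 := by
      have h4 := Real.quadratic_le_exp_of_nonneg hη
      rw [Real.exp_neg]
      rw [inv_le_iff_one_le_mul₀ (Real.exp_pos _)]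
      have h5 : 0 < 1 - η + η ^ 2 / 2 := by nlinarith
      calc (1 : ℝ) ≤ (1 - η + η ^ 2 / 2) * (1 + η + η ^ 2 / 2) := by nlinarith [pow_nonneg hη 4]
        _ ≤ _ := mul_le_mul_of_nonneg_left h4 h5.le
    linarith
  have h3 : μ.real {ω | XX A t B N ω ≤ (1 - η) * YY μ ℱ A t B N ω ∧ y ≤ YY μ ℱ A t B N ω} ≤
      μ.real {ω | Real.exp (η ^ 2 * y / 2) ≤
        Real.exp (-(η * XX A t B N ω) + (1 - Real.exp (-η)) * YY μ ℱ A t B N ω)} := by
    apply measureReal_mono _ (measure_ne_top _ _)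
    rintro ω ⟨h4, h5⟩
    apply Real.exp_le_exp.2
    have h6 : η * XX A t B N ω ≤ η * ((1 - η) * YY μ ℱ A t B N ω) := mul_le_mul_of_nonneg_left h4 hη
    have h7 : 0 ≤ YY μ ℱ A t B N ω := hy.trans h5
    have h8 : (η - η ^ 2 / 2) * YY μ ℱ A t B N ω ≤ (1 - Real.exp (-η)) * YY μ ℱ A t B N ω :=
      mul_le_mul_of_nonneg_right hexp h7
    have h9 : η ^ 2 * y ≤ η ^ 2 * YY μ ℱ A t B N ω := mul_le_mul_of_nonneg_left h5 (sq_nonneg _)
    nlinarith
  have h5 : μ.real {ω | XX A t B N ω ≤ (1 - η) * YY μ ℱ A t B N ω ∧ y ≤ YY μ ℱ A t B N ω} ≤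
      1 / Real.exp (η ^ 2 * y / 2) := by
    rw [le_div_iff₀ (Real.exp_pos _), mul_comm]
    exact (mul_le_mul_of_nonneg_left h3 (Real.exp_pos _).le).trans (h2.trans hle)
  rwa [one_div, ← Real.exp_neg] at h5

/-- all members of an increasing sequence are chosen, the conditional probabilities being small -/
theorem allin (hA : ∀ n, MeasurableSet[ℱ n] (A n)) (ht : StrictMono t) {u : ℝ} (hu : 0 ≤ u) (K : ℕ) :
    μ.real {ω | ∀ i < K, ω ∈ A (t i + 1) ∧ dens μ ℱ A (t i) ω ≤ u} ≤ u ^ K := by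
  have hm : ∀ K, MeasurableSet[ℱ (t K)] {ω | ∀ i < K, ω ∈ A (t i + 1) ∧ dens μ ℱ A (t i) ω ≤ u} := by
    intro K
    have h1 : {ω | ∀ i < K, ω ∈ A (t i + 1) ∧ dens μ ℱ A (t i) ω ≤ u} =
        ⋂ i ∈ Finset.range K, (A (t i + 1) ∩ {ω | dens μ ℱ A (t i) ω ≤ u}) := by
      ext ω
      simp
    rw [h1]
    refine Finset.measurableSet_biInter _ fun i hi => ?_
    have hi' := ht (Finset.mem_range.1 hi)
    refine MeasurableSet.inter (ℱ.mono (by omega) _ (hA _)) ?_
    have h2 : Measurable[ℱ (t i)] (dens μ ℱ A (t i)) := (dens_meas _).measurable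
    exact ℱ.mono (by omega) _ (h2 (measurableSet_Iic (a := u)))
  induction K with
  | zero => simp
  | succ K ih =>
    have hD : MeasurableSet[ℱ (t K)] {ω | dens μ ℱ A (t K) ω ≤ u} := by
      have h2 : Measurable[ℱ (t K)] (dens μ ℱ A (t K)) := (dens_meas _).measurable
      exact h2 (measurableSet_Iic (a := u))
    have h1 := upper_meas (μ := μ) hA (t K) ((hm K).inter hD) (u := u) (fun ω hω => hω.2)
    have h2 : {ω | ∀ i < K + 1, ω ∈ A (t i + 1) ∧ dens μ ℱ A (t i) ω ≤ u} ⊆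
        ({ω | ∀ i < K, ω ∈ A (t i + 1) ∧ dens μ ℱ A (t i) ω ≤ u} ∩ {ω | dens μ ℱ A (t K) ω ≤ u}) ∩
          A (t K + 1) := by
      intro ω hω
      exact ⟨⟨fun i hi => hω i (by omega), (hω K (by omega)).2⟩, (hω K (by omega)).1⟩
    calc _ ≤ _ := measureReal_mono h2 (measure_ne_top _ _)
      _ ≤ _ := h1
      _ ≤ u * μ.real {ω | ∀ i < K, ω ∈ A (t i + 1) ∧ dens μ ℱ A (t i) ω ≤ u} :=
          mul_le_mul_of_nonneg_left (measureReal_mono inter_subset_left (measure_ne_top _ _)) hu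
      _ ≤ u * u ^ K := mul_le_mul_of_nonneg_left ih hu
      _ = u ^ (K + 1) := by ring

end

end Pool.Agent.D0H16.CC
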