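import Mathlib
import Pool.Agent.D0H16.CC.Prob

/-! Chains `2 ^ i n + 1`, `i < j`, in adapted random sets: the number of the chains starting in an interval,
level by level. -/

set_option autoImplicit false
set_option linter.unusedSectionVars false

namespace Pool.Agent.D0H16.CC

open MeasureTheory Filter Set Pool.Agent.R528.RM
open scoped Topology ENNReal

variable {Ω : Type} {m0 : MeasurableSpace Ω} {μ : Measure Ω} [IsProbabilityMeasure μ]
  {ℱ : Filtration ℕ m0} {A : ℕ → Set Ω}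

lemma bc_real {s : ℕ → Set Ω} {c : ℕ → ℝ} (hc : Summable c) (h : ∀ᶠ n in atTop, μ.real (s n) ≤ c n) :
    ∀ᵐ ω ∂μ, ∀ᶠ n in atTop, ω ∉ s n := by
  obtain ⟨N, hN⟩ := eventually_atTop.1 h
  have h1 : ∑' n, μ (s (n + N)) ≠ ∞ := by
    have h2 : ∀ n, μ (s (n + N)) ≤ ENNReal.ofReal (c (n + N)) := by
      intro n
      rw [← ofReal_measureReal (measure_ne_top μ (s (n + N)))]
      exact ENNReal.ofReal_le_ofReal (hN _ (by omega))
    have h3 : Summable (fun n => c (n + N)) := (summable_nat_add_iff N).2 hc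
    have h4 : ∀ n, 0 ≤ c (n + N) := fun n => measureReal_nonneg.trans (hN _ (by omega))
    refine ne_top_of_le_ne_top ?_ (ENNReal.tsum_le_tsum h2)
    rw [← ENNReal.ofReal_tsum_of_nonneg h4 h3]
    exact ENNReal.ofReal_ne_top
  filter_upwards [ae_eventually_notMem h1] with ω hω
  obtain ⟨M, hM⟩ := eventually_atTop.1 hω
  filter_upwards [eventually_ge_atTop (M + N)] with n hn
  have := hM (n - N) (by omega)
  rwa [show n - N + N = n by omega] at this

/-- the numbers `2 ^ i n + 1`, `i < j`, are chosen -/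
def Ch (A : ℕ → Set Ω) (n j : ℕ) (ω : Ω) : Prop := ∀ i < j, ω ∈ A (2 ^ i * n + 1)

lemma pow_succ_le {i j n : ℕ} (hij : i < j) (hn : 1 ≤ n) : 2 ^ i * n + 1 ≤ 2 ^ j * n := by
  have h1 : 2 ^ (i + 1) ≤ 2 ^ j := Nat.pow_le_pow_right (by norm_num) hij
  have h2 : 1 ≤ 2 ^ i * n := Nat.mul_pos (by positivity) hn
  calc 2 ^ i * n + 1 ≤ 2 ^ i * n + 2 ^ i * n := by omega
    _ = 2 ^ (i + 1) * n := by ring
    _ ≤ 2 ^ j * n := Nat.mul_le_mul_right _ h1

lemma Ch_meas (hA : ∀ n, MeasurableSet[ℱ n] (A n)) {n : ℕ} (hn : 1 ≤ n) (j : ℕ) :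
    MeasurableSet[ℱ (2 ^ j * n)] {ω | Ch A n j ω} := by
  have h1 : {ω | Ch A n j ω} = ⋂ i ∈ Finset.range j, A (2 ^ i * n + 1) := by
    ext ω
    simp [Ch]
  rw [h1]
  refine Finset.measurableSet_biInter _ fun i hi => ?_
  exact ℱ.mono (pow_succ_le (Finset.mem_range.1 hi) hn) _ (hA _)

open Classical in
/-- the candidates: `n ≥ x`, `n ≥ 1`, `D ∣ n`, chain of length `j` -/
def Bc (A : ℕ → Set Ω) (x D j n : ℕ) : Set Ω := if 1 ≤ n ∧ x ≤ n ∧ D ∣ n then {ω | Ch A n j ω} else ∅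

lemma Bc_meas (hA : ∀ n, MeasurableSet[ℱ n] (A n)) (x D j n : ℕ) :
    MeasurableSet[ℱ (2 ^ j * n)] (Bc A x D j n) := by
  unfold Bc
  split_ifs with h
  · exact Ch_meas hA h.1 j
  · exact @MeasurableSet.empty _ (ℱ (2 ^ j * n))

lemma tmono (j : ℕ) : StrictMono (fun n : ℕ => 2 ^ j * n) := fun a b h => by
  have : 0 < 2 ^ j := by positivity
  exact Nat.mul_lt_mul_of_pos_left h this

open Classical in
/-- the number of the multiples `n` of `D` in `[x, x + H)` with a chain of length `j` -/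
noncomputable def T (A : ℕ → Set Ω) (x H D j : ℕ) (ω : Ω) : ℕ :=
  ((Finset.Ico x (x + H)).filter (fun n => D ∣ n ∧ Ch A n j ω)).card

lemma XX_eq (x H D j : ℕ) (hx : 1 ≤ x) (ω : Ω) :
    XX A (fun n => 2 ^ j * n) (Bc A x D j) (x + H) ω = T A x H D (j + 1) ω := by
  classical
  unfold XX T
  rw [Finset.card_filter]
  push_cast
  rw [Finset.range_eq_Ico, ← Finset.sum_Ico_consecutive _ (Nat.zero_le x) (Nat.le_add_right x H)]
  have h0 : ∑ n ∈ Finset.Ico 0 x, (Bc A x D j n).indicator (fun _ => (1 : ℝ)) ω *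
      (A (2 ^ j * n + 1)).indicator (fun _ => (1 : ℝ)) ω = 0 := by
    refine Finset.sum_eq_zero fun n hn => ?_
    have hn' := (Finset.mem_Ico.1 hn).2
    have : Bc A x D j n = ∅ := by
      unfold Bc
      rw [if_neg]
      omega
    rw [this]
    simp
  rw [h0, zero_add]
  refine Finset.sum_congr rfl fun n hn => ?_
  have hn' := Finset.mem_Ico.1 hn
  by_cases hD : D ∣ n
  · have : Bc A x D j n = {ω | Ch A n j ω} := by
      unfold Bc
      rw [if_pos ⟨by omega, by omega, hD⟩]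
    rw [this]
    by_cases h1 : Ch A n j ω
    · by_cases h2 : ω ∈ A (2 ^ j * n + 1)
      · have h3 : Ch A n (j + 1) ω := by
          intro i hi
          rcases Nat.lt_succ_iff_lt_or_eq.1 hi with h | h
          · exact h1 i h
          · rw [h]; exact h2
        simp [h1, h2, h3, hD]
      · have h3 : ¬ Ch A n (j + 1) ω := fun h => h2 (h j (by omega))
        simp [h2, h3]
    · have h3 : ¬ Ch A n (j + 1) ω := fun h => h1 (fun i hi => h i (by omega))
      simp [h1, h3]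
  · have : Bc A x D j n = ∅ := by
      unfold Bc
      rw [if_neg]
      tauto
    rw [this]
    simp [hD]

lemma YY_ge (x H D j : ℕ) (hx : 1 ≤ x) (ω : Ω) {l : ℝ}
    (hl : ∀ n, x ≤ n → n < x + H → D ∣ n → l ≤ dens μ ℱ A (2 ^ j * n) ω)  :
    l * T A x H D j ω ≤ YY μ ℱ A (fun n => 2 ^ j * n) (Bc A x D j) (x + H) ω := by
  classical
  unfold YY T
  rw [Finset.card_filter]
  push_cast
  rw [Finset.range_eq_Ico, ← Finset.sum_Ico_consecutive _ (Nat.zero_le x) (Nat.le_add_right x H)]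
  have h0 : ∑ n ∈ Finset.Ico 0 x, (Bc A x D j n).indicator (fun _ => (1 : ℝ)) ω *
      dens μ ℱ A (2 ^ j * n) ω = 0 := by
    refine Finset.sum_eq_zero fun n hn => ?_
    have hn' := (Finset.mem_Ico.1 hn).2
    have : Bc A x D j n = ∅ := by
      unfold Bc
      rw [if_neg]
      omega
    rw [this]
    simp
  rw [h0, zero_add, Finset.mul_sum]
  refine Finset.sum_le_sum fun n hn => ?_
  have hn' := Finset.mem_Ico.1 hn
  by_cases hD : D ∣ n
  · have : Bc A x D j n = {ω | Ch A n j ω} := by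
      unfold Bc
      rw [if_pos ⟨by omega, by omega, hD⟩]
    rw [this]
    by_cases h1 : Ch A n j ω
    · simpa [h1, hD] using hl n hn'.1 hn'.2 hD
    · simp [h1]
  · have : Bc A x D j n = ∅ := by
      unfold Bc
      rw [if_neg]
      tauto
    rw [this]
    simp [hD]

lemma T_zero (x H D : ℕ) (hD : 1 ≤ D) (ω : Ω) : (H : ℝ) / D - 1 ≤ T A x H D 0 ω := by
  classical
  have h1 : H / D ≤ T A x H D 0 ω := by
    unfold T
    rw [← Finset.card_range (H / D)]
    refine Finset.card_le_card_of_injOn (fun i => D * ((x + (D - 1)) / D + i)) ?_ ?_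
    · intro i hi
      have hi' := Finset.mem_range.1 (Finset.mem_coe.1 hi)
      have g1 : D * ((x + (D - 1)) / D) ≤ x + (D - 1) := Nat.mul_div_le _ _
      have g2 : x + (D - 1) < D * ((x + (D - 1)) / D) + D := Nat.lt_mul_div_succ _ (by omega)
      have g3 : D * (i + 1) ≤ D * (H / D) := Nat.mul_le_mul_left _ hi'
      have g4 : D * (H / D) ≤ H := Nat.mul_div_le _ _
      have g5 : D * ((x + (D - 1)) / D + i) = D * ((x + (D - 1)) / D) + D * i := by ring
      have g6 : D * (i + 1) = D * i + D := by ring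
      simp only [Finset.coe_filter, Finset.mem_Ico, Set.mem_ofPred_eq]
      refine ⟨⟨?_, ?_⟩, ⟨_, rfl⟩, fun i hi => absurd hi (by omega)⟩
      · omega
      · omega
    · intro a _ b _ hab
      have : D * ((x + (D - 1)) / D + a) = D * ((x + (D - 1)) / D + b) := hab
      have h2 := Nat.eq_of_mul_eq_mul_left (by omega) this
      omega
  have h2 : (H : ℝ) < D * ((H / D : ℕ) + 1) := by
    have := Nat.lt_mul_div_succ H (show 0 < D by omega)
    exact_mod_cast this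
  have hD0 : (0 : ℝ) < D := by exact_mod_cast hD
  have h3 : (H : ℝ) / D < (H / D : ℕ) + 1 := by
    rw [div_lt_iff₀ hD0]
    linarith
  have h4 : ((H / D : ℕ) : ℝ) ≤ T A x H D 0 ω := by exact_mod_cast h1
  linarith

/-- the event of an exceptionally small number of chosen candidates at level `j` -/
def Fail (μ : Measure Ω) (ℱ : Filtration ℕ m0) (A : ℕ → Set Ω) (η y : ℝ) (x H D j : ℕ) : Set Ω :=
  {ω | XX A (fun n => 2 ^ j * n) (Bc A x D j) (x + H) ω ≤
      (1 - η) * YY μ ℱ A (fun n => 2 ^ j * n) (Bc A x D j) (x + H) ω ∧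
    y ≤ YY μ ℱ A (fun n => 2 ^ j * n) (Bc A x D j) (x + H) ω}

lemma Fail_le (hA : ∀ n, MeasurableSet[ℱ n] (A n)) {η y : ℝ} (hη : 0 ≤ η) (hη1 : η ≤ 1) (hy : 0 ≤ y)
    (x H D j : ℕ) : μ.real (Fail μ ℱ A η y x H D j) ≤ Real.exp (-(η ^ 2 * y / 2)) :=
  tail hA (tmono j) (fun n => Bc_meas hA x D j n) hη hη1 (x + H) hy

lemma step {η y l : ℝ} (hη1 : η < 1) {x H D j : ℕ} (hx : 1 ≤ x) {ω : Ω}
    (hF : ω ∉ Fail μ ℱ A η y x H D j)
    (hl : ∀ n, x ≤ n → n < x + H → D ∣ n → l ≤ dens μ ℱ A (2 ^ j * n) ω)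
    (hy : y ≤ l * T A x H D j ω) : (1 - η) * l * T A x H D j ω ≤ T A x H D (j + 1) ω := by
  have h1 := YY_ge (μ := μ) (ℱ := ℱ) (A := A) x H D j hx ω hl
  have h2 : ¬ (XX A (fun n => 2 ^ j * n) (Bc A x D j) (x + H) ω ≤
      (1 - η) * YY μ ℱ A (fun n => 2 ^ j * n) (Bc A x D j) (x + H) ω) := by
    intro h
    exact hF ⟨h, hy.trans h1⟩
  rw [XX_eq x H D j hx ω] at h2
  have h3 : (1 - η) * (l * T A x H D j ω) ≤
      (1 - η) * YY μ ℱ A (fun n => 2 ^ j * n) (Bc A x D j) (x + H) ω :=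
    mul_le_mul_of_nonneg_left h1 (by linarith)
  rw [not_le] at h2
  nlinarith

lemma iterate {η y l : ℝ} (hη : 0 ≤ η) (hη1 : η < 1) (hl0 : 0 < l) (hl1 : l ≤ 1) {x H D k : ℕ} (hx : 1 ≤ x) {ω : Ω}
    (hF : ∀ j < k, ω ∉ Fail μ ℱ A η y x H D j)
    (hl : ∀ j < k, ∀ n, x ≤ n → n < x + H → D ∣ n → l ≤ dens μ ℱ A (2 ^ j * n) ω)
    (hy : y ≤ T A x H D 0 ω * ((1 - η) * l) ^ k) :
    ∀ j ≤ k, T A x H D 0 ω * ((1 - η) * l) ^ j ≤ T A x H D j ω := by
  intro j
  induction j with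
  | zero => intro _; simp
  | succ j ih =>
    intro hj
    have ih := ih (by omega)
    set q : ℝ := (1 - η) * l with hq
    have hq0 : 0 < q := mul_pos (by linarith) hl0
    have hq1 : q ≤ 1 := by
      rw [hq]
      exact mul_le_one₀ (by linarith) hl0.le hl1
    have hql : q ≤ l := by rw [hq]; nlinarith
    have hT0 : (0 : ℝ) ≤ T A x H D 0 ω := Nat.cast_nonneg _
    have h1 : y ≤ l * T A x H D j ω := by
      calc y ≤ T A x H D 0 ω * q ^ k := hy
        _ ≤ T A x H D 0 ω * q ^ (j + 1) :=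
            mul_le_mul_of_nonneg_left (pow_le_pow_of_le_one hq0.le hq1 hj) hT0
        _ = q * (T A x H D 0 ω * q ^ j) := by ring
        _ ≤ q * T A x H D j ω := mul_le_mul_of_nonneg_left ih hq0.le
        _ ≤ l * T A x H D j ω := mul_le_mul_of_nonneg_right hql (Nat.cast_nonneg _)
    have h2 := step hη1 hx (hF j (by omega)) (hl j (by omega)) h1
    calc T A x H D 0 ω * q ^ (j + 1) = q * (T A x H D 0 ω * q ^ j) := by ring
      _ ≤ q * T A x H D j ω := mul_le_mul_of_nonneg_left ih hq0.le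
      _ ≤ T A x H D (j + 1) ω := h2

lemma sum_aux {η : ℝ} (hη : 0 < η) : ∀ᶠ x : ℕ in atTop,
    ((x : ℝ) + 1) ^ 2 * Real.exp (-(η ^ 2 * (Real.log x) ^ 2 / 2)) ≤ 1 / (x : ℝ) ^ 2 := by
  have h1 : Tendsto (fun x : ℕ => Real.log (x : ℝ)) atTop atTop :=
    Real.tendsto_log_atTop.comp tendsto_natCast_atTop_atTop
  filter_upwards [h1.eventually_ge_atTop (12 / η ^ 2), eventually_ge_atTop 2] with x h2 h3
  have hx2 : (2 : ℝ) ≤ x := by exact_mod_cast h3
  have hx0 : (0 : ℝ) < x := by linarith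
  have hL : 0 < Real.log x := Real.log_pos (by linarith)
  have hη2 : 0 < η ^ 2 := by positivity
  have h4 : 6 * Real.log x ≤ η ^ 2 * (Real.log x) ^ 2 / 2 := by
    rw [div_le_iff₀ hη2] at h2
    nlinarith
  have h5 : Real.exp (-(η ^ 2 * (Real.log x) ^ 2 / 2)) ≤ ((x : ℝ) ^ 6)⁻¹ := by
    rw [Real.exp_neg]
    refine inv_anti₀ (by positivity) ?_
    have e : (x : ℝ) ^ 6 = Real.exp (6 * Real.log x) := by
      rw [show 6 * Real.log (x : ℝ) = Real.log ((x : ℝ) ^ 6) by rw [Real.log_pow]; norm_num,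
        Real.exp_log (by positivity)]
    rw [e]
    exact Real.exp_le_exp.2 h4
  have h6 : ((x : ℝ) + 1) ^ 2 ≤ (x : ℝ) ^ 4 := by
    have h7 : (x : ℝ) + 1 ≤ (x : ℝ) ^ 2 := by nlinarith
    have h8 := pow_le_pow_left₀ (by linarith) h7 2
    refine h8.trans (le_of_eq ?_)
    ring
  have h9 : ((x : ℝ) + 1) ^ 2 * Real.exp (-(η ^ 2 * (Real.log x) ^ 2 / 2)) ≤
      (x : ℝ) ^ 4 * ((x : ℝ) ^ 6)⁻¹ := mul_le_mul h6 h5 (Real.exp_pos _).le (by positivity)
  refine h9.trans (le_of_eq ?_)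
  field_simp

lemma union_le (s : Finset ℕ) (E : ℕ → ℕ → Set Ω) {c : ℝ} (h : ∀ i j, μ.real (E i j) ≤ c) :
    μ.real (⋃ i ∈ s, ⋃ j ∈ s, E i j) ≤ (s.card : ℝ) ^ 2 * c := by
  have h1 : ∀ i, μ.real (⋃ j ∈ s, E i j) ≤ s.card * c := by
    intro i
    refine (measureReal_biUnion_finset_le s (fun j => E i j)).trans ?_
    refine (Finset.sum_le_card_nsmul s _ c fun j _ => h i j).trans (le_of_eq ?_)
    rw [nsmul_eq_mul]
  refine (measureReal_biUnion_finset_le s (fun i => ⋃ j ∈ s, E i j)).trans ?_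
  refine (Finset.sum_le_card_nsmul s _ (s.card * c) fun i _ => h1 i).trans (le_of_eq ?_)
  rw [nsmul_eq_mul]
  ring

/-- almost surely no failures for large `x` -/
theorem nofail (hA : ∀ n, MeasurableSet[ℱ n] (A n)) {η : ℝ} (hη : 0 < η) (hη1 : η ≤ 1) (D : ℕ → ℕ) :
    ∀ᵐ ω ∂μ, ∀ᶠ x : ℕ in atTop, ∀ H ≤ x, ∀ j ≤ x, ω ∉ Fail μ ℱ A η ((Real.log x) ^ 2) x H (D x) j := by
  have hs : Summable (fun x : ℕ => 1 / (x : ℝ) ^ 2) := Real.summable_one_div_nat_pow.2 (by norm_num)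
  have h0 : ∀ᶠ x : ℕ in atTop, μ.real (⋃ H ∈ Finset.range (x + 1), ⋃ j ∈ Finset.range (x + 1),
      Fail μ ℱ A η ((Real.log x) ^ 2) x H (D x) j) ≤ 1 / (x : ℝ) ^ 2 := by
    filter_upwards [sum_aux hη] with x hx
    refine le_trans ?_ hx
    have h2 := union_le (μ := μ) (Finset.range (x + 1))
      (fun H j => Fail μ ℱ A η ((Real.log x) ^ 2) x H (D x) j)
      (c := Real.exp (-(η ^ 2 * (Real.log x) ^ 2 / 2)))
      (fun H j => Fail_le hA hη.le hη1 (sq_nonneg _) x H (D x) j)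
    rw [Finset.card_range] at h2
    push_cast at h2
    exact h2
  have h1 := bc_real (μ := μ) hs h0
  filter_upwards [h1] with ω hω
  filter_upwards [hω] with x hx H hH j hj hFl
  apply hx
  simp only [mem_iUnion, Finset.mem_range]
  exact ⟨H, by omega, j, by omega, hFl⟩

end Pool.Agent.D0H16.CC
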