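import Mathlib
import Pool.Agent.D0H16.CC.Lev

/-! The lower bound: every interval contains starts of long chains. -/

set_option autoImplicit false
set_option linter.unusedSectionVars false

namespace Pool.Agent.D0H16.CC

open MeasureTheory Filter Set Pool.Agent.R528.RM
open scoped Topology ENNReal

variable {Ω : Type} {m0 : MeasurableSpace Ω} {μ : Measure Ω} [IsProbabilityMeasure μ]
  {ℱ : Filtration ℕ m0} {A : ℕ → Set Ω}

/-- `log log x - log (w x) - log c` -/
noncomputable def Del (w : ℕ → ℝ) (c : ℝ) (x : ℕ) : ℝ :=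
  Real.log (Real.log x) - Real.log (w x) - Real.log c

lemma tL : Tendsto (fun x : ℕ => Real.log (x : ℝ)) atTop atTop :=
  Real.tendsto_log_atTop.comp tendsto_natCast_atTop_atTop

lemma tLL : Tendsto (fun x : ℕ => Real.log (Real.log (x : ℝ))) atTop atTop :=
  Real.tendsto_log_atTop.comp tL

/-- powers of `log log x` are smaller than `log x` -/
lemma LL_small (k : ℕ) {a : ℝ} (ha : 0 < a) :
    ∀ᶠ x : ℕ in atTop, (Real.log (Real.log x)) ^ k ≤ a * Real.log x := by
  have h1 := (Real.isLittleO_pow_log_id_atTop (n := k)).bound ha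
  have h2 := tL.eventually h1
  filter_upwards [h2, tL.eventually_ge_atTop 1, tLL.eventually_ge_atTop 0] with x h3 h4 h5
  simp only [id, Real.norm_eq_abs] at h3
  rw [abs_of_nonneg (pow_nonneg h5 k), abs_of_nonneg (by linarith)] at h3
  exact h3

lemma Del_asymp {w : ℕ → ℝ}
    (hw1 : Tendsto (fun n : ℕ => Real.log (w n) / Real.log (Real.log n)) atTop (𝓝 0)) (c : ℝ)
    {τ : ℝ} (hτ : 0 < τ) : ∀ᶠ x : ℕ in atTop, (1 - τ) * Real.log (Real.log x) ≤ Del w c x ∧
      Del w c x ≤ (1 + τ) * Real.log (Real.log x) := by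
  have h1 : ∀ᶠ n : ℕ in atTop, |Real.log (w n) / Real.log (Real.log n)| < τ / 2 := by
    have := hw1.eventually (Metric.ball_mem_nhds 0 (show 0 < τ / 2 by positivity))
    filter_upwards [this] with n hn
    simpa [Real.dist_eq, abs_div] using hn
  filter_upwards [h1, tLL.eventually_gt_atTop 0, tLL.eventually_ge_atTop (2 * |Real.log c| / τ)]
    with x h2 h3 h4
  rw [abs_div, abs_of_pos h3, div_lt_iff₀ h3] at h2
  rw [div_le_iff₀ hτ] at h4
  have h5 := abs_lt.1 h2
  have h6 := le_abs_self (Real.log c)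
  have h7 := neg_abs_le (Real.log c)
  unfold Del
  constructor <;> nlinarith

/-- the sieve modulus -/
noncomputable def Zx (κ : ℝ) (x : ℕ) : ℕ := ⌊κ * Real.log x / Real.log (Real.log x)⌋₊

noncomputable def Dx (κ : ℝ) (x : ℕ) : ℕ := primorial (Zx κ x)

lemma Dx_pos (κ : ℝ) (x : ℕ) : 1 ≤ Dx κ x := primorial_pos _

lemma log_Dx {κ : ℝ} (hκ : 0 < κ) : ∀ᶠ x : ℕ in atTop,
    Real.log (Dx κ x) ≤ 2 * κ * (Real.log x / Real.log (Real.log x)) := by
  filter_upwards [tL.eventually_ge_atTop 0, tLL.eventually_gt_atTop 0] with x h1 h2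
  have h3 : (Dx κ x : ℝ) ≤ 4 ^ Zx κ x := by
    exact_mod_cast primorial_le_four_pow (Zx κ x)
  have h4 : (0 : ℝ) < Dx κ x := by exact_mod_cast Dx_pos κ x
  have h5 := Real.log_le_log h4 h3
  rw [Real.log_pow] at h5
  have h6 : (Zx κ x : ℝ) ≤ κ * Real.log x / Real.log (Real.log x) := Nat.floor_le (by positivity)
  have h7 : Real.log 4 ≤ 2 := by
    rw [show (4 : ℝ) = 2 ^ 2 by norm_num, Real.log_pow]
    have := Real.log_two_lt_d9
    push_cast
    linarith
  have h8 : 0 ≤ Real.log 4 := Real.log_nonneg (by norm_num)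
  calc Real.log (Dx κ x) ≤ Zx κ x * Real.log 4 := h5
    _ ≤ (κ * Real.log x / Real.log (Real.log x)) * 2 := mul_le_mul h6 h7 h8 (by positivity)
    _ = _ := by ring

/-- coprimality to the sieving modulus -/
lemma cop {Q z : ℕ → ℕ} (hQ : ∀ n q : ℕ, q.Prime → q ∣ Q n → q ≤ z n) {κ : ℝ} {x m : ℕ}
    (hD : Dx κ x ∣ m) (hz : z (m + 1) ≤ Zx κ x) : Nat.Coprime (m + 1) (Q (m + 1)) := by
  by_contra hc
  obtain ⟨q, hq, h1, h2⟩ := Nat.Prime.not_coprime_iff_dvd.1 hc
  have h3 : q ≤ Zx κ x := (hQ _ q hq h2).trans hz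
  have h4 : q ∣ m := (hq.dvd_primorial_iff.2 h3).trans hD
  have h5 : q ∣ 1 := by
    have := (Nat.dvd_add_right h4).1 h1
    exact this
  exact hq.one_lt.ne' (Nat.dvd_one.1 h5)

lemma z_le {z : ℕ → ℕ}
    (hz : Tendsto (fun n : ℕ => (z n : ℝ) * Real.log (Real.log n) / Real.log n) atTop (𝓝 0))
    {κ : ℝ} (hκ : 0 < κ) : ∀ᶠ x : ℕ in atTop, ∀ m : ℕ, x ≤ m → m ≤ x ^ 2 → z m ≤ Zx κ x := by
  have h1 : ∀ᶠ n : ℕ in atTop, (z n : ℝ) * Real.log (Real.log n) / Real.log n < κ / 2 := by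
    exact hz.eventually (gt_mem_nhds (show 0 < κ / 2 by positivity))
  obtain ⟨N, hN⟩ := eventually_atTop.1 h1
  filter_upwards [eventually_ge_atTop N, tLL.eventually_gt_atTop 0, eventually_ge_atTop 3,
    tL.eventually_gt_atTop 0] with x h2 h3 h4 h5 m h6 h7
  have h8 := hN m (by omega)
  have hx0 : (0 : ℝ) < x := by exact_mod_cast (by omega : 0 < x)
  have hm : Real.log x ≤ Real.log m := Real.log_le_log hx0 (by exact_mod_cast h6)
  have hm2 : Real.log m ≤ 2 * Real.log x := by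
    have := Real.log_le_log (by exact_mod_cast (by omega : 0 < m)) (show (m : ℝ) ≤ (x : ℝ) ^ 2 by exact_mod_cast h7)
    rw [Real.log_pow] at this
    exact_mod_cast this
  have hmm : Real.log (Real.log x) ≤ Real.log (Real.log m) := Real.log_le_log h5 hm
  rw [div_lt_iff₀ (by linarith)] at h8
  refine Nat.le_floor ?_
  rw [le_div_iff₀ h3]
  calc (z m : ℝ) * Real.log (Real.log x) ≤ z m * Real.log (Real.log m) :=
        mul_le_mul_of_nonneg_left hmm (Nat.cast_nonneg _)
    _ ≤ κ / 2 * Real.log m := h8.le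
    _ ≤ κ / 2 * (2 * Real.log x) := mul_le_mul_of_nonneg_left hm2 (by positivity)
    _ = κ * Real.log x := by ring

open Classical in
/-- all starts in `[x, x + H)` of chains of length `k` -/
noncomputable def S0 (A : ℕ → Set Ω) (x H k : ℕ) (ω : Ω) : ℕ :=
  ((Finset.Ico x (x + H)).filter (fun n => Ch A n k ω)).card

lemma T_le_S0 (x H D k : ℕ) (ω : Ω) : T A x H D k ω ≤ S0 A x H k ω := by
  classical
  unfold T S0
  refine Finset.card_le_card fun n hn => ?_
  obtain ⟨h1, h2⟩ := Finset.mem_filter.1 hn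
  exact Finset.mem_filter.2 ⟨h1, h2.2⟩

theorem lower_main (hA : ∀ n, MeasurableSet[ℱ n] (A n)) {Q z : ℕ → ℕ}
    (hQ : ∀ n q : ℕ, q.Prime → q ∣ Q n → q ≤ z n)
    (hz : Tendsto (fun n : ℕ => (z n : ℝ) * Real.log (Real.log n) / Real.log n) atTop (𝓝 0))
    {w : ℕ → ℝ} (hw0 : ∀ n, 0 < w n)
    (hw1 : Tendsto (fun n : ℕ => Real.log (w n) / Real.log (Real.log n)) atTop (𝓝 0))
    (hw2 : ∀ ε : ℝ, 0 < ε → ∃ δ : ℝ, 0 < δ ∧ ∀ᶠ x : ℕ in atTop, ∀ m : ℕ, x ≤ m → (m : ℝ) ≤ (x : ℝ) ^ (1 + δ) →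
      |Real.log (w m) - Real.log (w x)| ≤ ε)
    {c : ℝ} (hc : 0 < c)
    (hlow : ∀ᵐ ω ∂μ, ∀ᶠ n : ℕ in atTop, Nat.Coprime (n + 1) (Q (n + 1)) →
      c * w n / Real.log n ≤ dens μ ℱ A n ω) {ε : ℝ} (hε : 0 < ε) (hε1 : ε ≤ 1) :
    ∀ᵐ ω ∂μ, ∀ᶠ x : ℕ in atTop, ∀ H k : ℕ, (x : ℝ) ^ ε ≤ H → H ≤ x →
      k * (Del w c x + ε) ≤ Real.log H →
      1 ≤ S0 A x H k ω ∧
      (H : ℝ) * Real.exp (-(k * (Del w c x + ε) + ε * (Real.log x / Real.log (Real.log x)))) ≤ S0 A x H k ω := by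
  set η : ℝ := 1 - Real.exp (-(ε / 4)) with hη
  have hexp1 : Real.exp (-(ε / 4)) < 1 := by
    have := Real.exp_lt_exp.2 (show -(ε / 4) < 0 by linarith)
    rwa [Real.exp_zero] at this
  have hη0 : 0 < η := by linarith
  have hη1 : η < 1 := by have := Real.exp_pos (-(ε / 4)); linarith
  set κ : ℝ := ε ^ 2 / 32 with hκdef
  have hκ : 0 < κ := by positivity
  obtain ⟨δ0, hδ0, hδw⟩ := hw2 (ε / 8) (by positivity)
  set δ : ℝ := min (min δ0 (ε / 8)) 1 with hδdef
  have hδ : 0 < δ := by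
    rw [hδdef]; positivity
  have hδ0' : δ ≤ δ0 := (min_le_left _ _).trans (min_le_left _ _)
  have hδε : δ ≤ ε / 8 := (min_le_left _ _).trans (min_le_right _ _)
  have hδ1 : δ ≤ 1 := min_le_right _ _
  filter_upwards [nofail (μ := μ) hA hη0 hη1.le (Dx κ), hlow] with ω hω1 hω2
  obtain ⟨N, hN⟩ := eventually_atTop.1 hω2
  have hA1 := LL_small 2 (a := ε ^ 2 / 64) (by positivity)
  filter_upwards [hω1, hδw, Del_asymp hw1 c (show (0 : ℝ) < 1 / 2 by norm_num), eventually_ge_atTop N,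
    eventually_ge_atTop 3, tL.eventually_ge_atTop (4 / δ), tLL.eventually_ge_atTop (16 / δ),
    log_Dx hκ, z_le hz hκ, hA1, tLL.eventually_ge_atTop 4]
    with x g1 g2 g3 g4 g5 g6 g7 g8 g9 g10 g11 H k hH1 hH2 hk
  set L : ℝ := Real.log x with hL
  set M : ℝ := Real.log L with hM
  have hx0 : (0 : ℝ) < x := by exact_mod_cast (by omega : 0 < x)
  have hM0 : 0 < M := by linarith
  have hL4 : 4 / δ ≤ L := g6
  have hL0 : 0 < L := lt_of_lt_of_le (by positivity) hL4
  have hLpos : 4 ≤ L := by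
    have : 4 ≤ 4 / δ := by rw [le_div_iff₀ hδ]; linarith
    linarith
  set Δ : ℝ := Del w c x with hΔ
  have hΔ1 : M / 2 ≤ Δ := by have := g3.1; linarith
  have hΔ2 : Δ + ε ≤ 2 * M := by have := g3.2; linarith
  have hΔ0 : 0 < Δ := by linarith
  -- `H`
  have hH0 : (0 : ℝ) < H := lt_of_lt_of_le (Real.rpow_pos_of_pos hx0 _) hH1
  have hHlog : ε * L ≤ Real.log H := by
    have := Real.log_le_log (Real.rpow_pos_of_pos hx0 _) hH1
    rwa [Real.log_rpow hx0] at this
  have hHlog2 : Real.log H ≤ L := Real.log_le_log hH0 (by exact_mod_cast hH2)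
  -- `k`
  have hk1 : (k : ℝ) * (M / 2) ≤ L := by
    calc (k : ℝ) * (M / 2) ≤ k * (Δ + ε) := mul_le_mul_of_nonneg_left (by linarith) (Nat.cast_nonneg _)
      _ ≤ L := hk.trans hHlog2
  have hk2 : (k : ℝ) * 8 ≤ δ * L := by
    have h1 : (k : ℝ) * (16 / δ / 2) ≤ L :=
      (mul_le_mul_of_nonneg_left (by linarith) (Nat.cast_nonneg _)).trans hk1
    have h2 : (k : ℝ) * 8 = δ * (k * (16 / δ / 2)) := by field_simp; ring
    rw [h2]
    exact mul_le_mul_of_nonneg_left h1 hδ.le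
  have hkx : k ≤ x := by
    have h1 : (k : ℝ) ≤ L := by
      have h0 := mul_le_mul_of_nonneg_right hδ1 hL0.le
      have h00 := Nat.cast_nonneg (α := ℝ) k
      linarith
    have h2 : L ≤ x := by
      have := Real.log_le_sub_one_of_pos hx0
      linarith
    exact_mod_cast h1.trans h2
  -- times are at most `x ^ (1 + δ)`
  have htime : ∀ j < k, ∀ n, n < x + H → (((2 ^ j * n : ℕ) : ℕ) : ℝ) ≤ (x : ℝ) ^ (1 + δ) := by
    intro j hj n hn
    have h1 : ((2 ^ j * n : ℕ) : ℝ) ≤ 2 ^ (k : ℕ) * x := by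
      have h2 : n ≤ 2 * x := by omega
      have h3 : 2 ^ j * n ≤ 2 ^ j * (2 * x) := Nat.mul_le_mul_left _ h2
      have h4 : 2 ^ j * (2 * x) = 2 ^ (j + 1) * x := by ring
      have h5 : 2 ^ (j + 1) * x ≤ 2 ^ k * x := Nat.mul_le_mul_right _ (Nat.pow_le_pow_right (by norm_num) hj)
      exact_mod_cast (h3.trans (h4.le.trans h5))
    refine h1.trans ?_
    rw [← Real.log_le_log_iff (by positivity) (by positivity), Real.log_mul (by positivity) hx0.ne',
      Real.log_pow, Real.log_rpow hx0]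
    have h6 : Real.log 2 ≤ 1 := by have := Real.log_two_lt_d9; linarith
    have h7 : (k : ℝ) * Real.log 2 ≤ k * 8 := mul_le_mul_of_nonneg_left (by linarith) (Nat.cast_nonneg _)
    linarith
  -- the lower bound for the conditional probabilities
  set l : ℝ := Real.exp (-(Δ + ε / 4)) with hl
  have hldef : Real.exp (-Δ) = c * w x / L := by
    rw [hΔ]
    unfold Del
    rw [show -(Real.log (Real.log (x : ℝ)) - Real.log (w x) - Real.log c) =
      Real.log c + Real.log (w x) - Real.log (Real.log (x : ℝ)) by ring, Real.exp_sub, Real.exp_add,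
      Real.exp_log hc, Real.exp_log (hw0 x), Real.exp_log hL0]
  have hdens : ∀ j < k, ∀ n, x ≤ n → n < x + H → Dx κ x ∣ n → l ≤ dens μ ℱ A (2 ^ j * n) ω := by
    intro j hj n hn1 hn2 hn3
    set m : ℕ := 2 ^ j * n with hm
    have hmx : x ≤ m := by
      have : 1 ≤ 2 ^ j := Nat.one_le_two_pow
      calc x ≤ n := hn1
        _ = 1 * n := (one_mul n).symm
        _ ≤ m := Nat.mul_le_mul_right _ this
    have hm2 := htime j hj n hn2
    rw [← hm] at hm2
    have hm3 : m + 1 ≤ x ^ 2 := by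
      have h1 : 2 ^ (j + 1) * x ≤ 2 ^ k * x := Nat.mul_le_mul_right _ (Nat.pow_le_pow_right (by norm_num) hj)
      have h2 : m + 1 ≤ 2 ^ (j + 1) * x := by
        have h3 : n + 1 ≤ 2 * x := by omega
        have h4 : 2 ^ j * (n + 1) ≤ 2 ^ j * (2 * x) := Nat.mul_le_mul_left _ h3
        have h5 : 2 ^ j * (n + 1) = m + 2 ^ j := by rw [hm]; ring
        have h6 : 2 ^ j * (2 * x) = 2 ^ (j + 1) * x := by ring
        have h7 : 1 ≤ 2 ^ j := Nat.one_le_two_pow
        omega
      have h3 : (2 : ℝ) ^ k ≤ x := by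
        rw [← Real.log_le_log_iff (by positivity) hx0, Real.log_pow]
        have h6 : Real.log 2 ≤ 1 := by have := Real.log_two_lt_d9; linarith
        have h7 : (k : ℝ) * Real.log 2 ≤ k * 8 := mul_le_mul_of_nonneg_left (by linarith) (Nat.cast_nonneg _)
        have h8 : δ * L ≤ 1 * L := mul_le_mul_of_nonneg_right hδ1 hL0.le
        rw [← hL]
        linarith
      have h4 : 2 ^ k ≤ x := by exact_mod_cast h3
      calc m + 1 ≤ 2 ^ k * x := h2.trans h1
        _ ≤ x * x := Nat.mul_le_mul_right _ h4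
        _ = x ^ 2 := by ring
    have hcop : Nat.Coprime (m + 1) (Q (m + 1)) :=
      cop hQ (Dvd.dvd.mul_left hn3 _) (g9 (m + 1) (by omega) hm3)
    have h1 := hN m (by omega) hcop
    refine le_trans ?_ h1
    have hlm1 : L ≤ Real.log m := Real.log_le_log hx0 (by exact_mod_cast hmx)
    have hlm2 : Real.log m ≤ (1 + δ) * L := by
      have := Real.log_le_log (by exact_mod_cast (by omega : 0 < m)) hm2
      rwa [Real.log_rpow hx0] at this
    have hwm : |Real.log (w m) - Real.log (w x)| ≤ ε / 8 :=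
      g2 m hmx (hm2.trans (Real.rpow_le_rpow_of_exponent_le (by exact_mod_cast (by omega : 1 ≤ x)) (by linarith)))
    have hlmp : 0 < Real.log m := by linarith
    rw [← Real.log_le_log_iff (Real.exp_pos _) (by have := hw0 m; positivity), Real.log_exp,
      Real.log_div (by have := hw0 m; positivity) hlmp.ne', Real.log_mul hc.ne' (hw0 m).ne']
    have h2 : Real.log (Real.log m) ≤ Real.log (1 + δ) + M := by
      rw [hM, ← Real.log_mul (by positivity) hL0.ne']
      exact Real.log_le_log hlmp hlm2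
    have h3 : Real.log (1 + δ) ≤ δ := by
      have := Real.log_le_sub_one_of_pos (show (0 : ℝ) < 1 + δ by positivity)
      linarith
    have h4 := (abs_le.1 hwm).1
    have h5 : Δ = M - Real.log (w x) - Real.log c := rfl
    linarith
  -- the final size
  have hql : (1 - η) * l = Real.exp (-(Δ + ε / 2)) := by
    rw [hη, hl, show 1 - (1 - Real.exp (-(ε / 4))) = Real.exp (-(ε / 4)) by ring, ← Real.exp_add]
    congr 1
    ring
  have hqk : ((1 - η) * l) ^ k = Real.exp (-(k * (Δ + ε / 2))) := by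
    rw [hql, ← Real.exp_nat_mul]
    congr 1
    ring
  set D : ℕ := Dx κ x with hD
  have hD1 : 1 ≤ D := Dx_pos κ x
  have hD0 : (0 : ℝ) < D := by exact_mod_cast hD1
  have hLM : 64 / ε ^ 2 * M ≤ L / M := by
    rw [le_div_iff₀ hM0]
    have : M ^ 2 ≤ ε ^ 2 / 64 * L := g10
    have h2 : 64 / ε ^ 2 * (M ^ 2) ≤ 64 / ε ^ 2 * (ε ^ 2 / 64 * L) := mul_le_mul_of_nonneg_left this (by positivity)
    have h3 : 64 / ε ^ 2 * (ε ^ 2 / 64 * L) = L := by field_simp
    have h4 : 64 / ε ^ 2 * M * M = 64 / ε ^ 2 * M ^ 2 := by ring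
    linarith
  have hLM' : 4 * M ≤ ε ^ 2 / 16 * (L / M) := by
    have h2 : ε ^ 2 / 16 * (64 / ε ^ 2 * M) ≤ ε ^ 2 / 16 * (L / M) := mul_le_mul_of_nonneg_left hLM (by positivity)
    have h3 : ε ^ 2 / 16 * (64 / ε ^ 2 * M) = 4 * M := by field_simp; norm_num
    linarith
  have hlogD : Real.log D ≤ ε ^ 2 / 16 * (L / M) := by
    refine g8.trans (le_of_eq ?_)
    rw [hκdef]; ring
  have hLM0 : 0 < L / M := by positivity
  have hlog2 : Real.log 2 ≤ 1 := by have := Real.log_two_lt_d9; linarith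
  have hlog2D : Real.log (2 * D) + 2 * M ≤ ε ^ 2 / 8 * (L / M) := by
    rw [Real.log_mul (by norm_num) hD0.ne']
    linarith
  -- `H / D - 1 ≥ H / (2 D)`
  have hεL : ε ^ 2 / 8 * (L / M) ≤ ε * L := by
    have h1 : L / M ≤ L := by
      rw [div_le_iff₀ hM0]
      have h0 := mul_le_mul_of_nonneg_left (show (1 : ℝ) ≤ M by linarith) hL0.le
      linarith
    have h2 : ε ^ 2 / 8 ≤ ε := by
      have h0 := mul_le_mul_of_nonneg_left hε1 hε.le
      rw [pow_two]
      linarith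
    calc ε ^ 2 / 8 * (L / M) ≤ ε * (L / M) := mul_le_mul_of_nonneg_right h2 hLM0.le
      _ ≤ ε * L := mul_le_mul_of_nonneg_left h1 hε.le
  have hHD : 2 * (D : ℝ) ≤ H := by
    rw [← Real.log_le_log_iff (by positivity) hH0]
    linarith
  have hT0 : (H : ℝ) / (2 * D) ≤ T A x H D 0 ω := by
    have h1 := T_zero (A := A) x H D hD1 ω
    have h2 : (H : ℝ) / (2 * D) ≤ H / D - 1 := by
      rw [div_le_iff₀ (by positivity)]
      have : ((H : ℝ) / D - 1) * (2 * D) = 2 * H - 2 * D := by field_simp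
      rw [this]; linarith
    linarith
  have hlogT : Real.log (H / (2 * D)) = Real.log H - Real.log (2 * D) :=
    Real.log_div hH0.ne' (by positivity)
  -- the remaining exponent
  have hrem : Real.log H - k * (Δ + ε / 2) ≥ ε ^ 2 / 4 * (L / M) := by
    have hpos : 0 < Δ + ε := by linarith
    have h2 : (k : ℝ) * (Δ + ε / 2) ≤ Real.log H * ((Δ + ε / 2) / (Δ + ε)) := by
      rw [← mul_div_assoc, le_div_iff₀ hpos]
      have : (k : ℝ) * (Δ + ε) * (Δ + ε / 2) ≤ Real.log H * (Δ + ε / 2) :=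
        mul_le_mul_of_nonneg_right hk (by linarith)
      linarith
    have h3 : Real.log H - Real.log H * ((Δ + ε / 2) / (Δ + ε)) = Real.log H * ((ε / 2) / (Δ + ε)) := by
      field_simp
      ring
    have h4 : (ε / 2) / (2 * M) ≤ (ε / 2) / (Δ + ε) := div_le_div_of_nonneg_left (by positivity) hpos hΔ2
    have h5 : ε * L * ((ε / 2) / (2 * M)) ≤ Real.log H * ((ε / 2) / (Δ + ε)) :=
      mul_le_mul hHlog h4 (by positivity) (by linarith [mul_pos hε hL0])
    have h6 : ε * L * ((ε / 2) / (2 * M)) = ε ^ 2 / 4 * (L / M) := by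
      field_simp
      ring
    linarith
  have hy : L ^ 2 ≤ T A x H D 0 ω * ((1 - η) * l) ^ k := by
    rw [hqk]
    have h1 : L ^ 2 ≤ H / (2 * D) * Real.exp (-(k * (Δ + ε / 2))) := by
      rw [← Real.log_le_log_iff (by positivity) (by positivity), Real.log_mul (by positivity) (Real.exp_pos _).ne',
        Real.log_exp, Real.log_pow, hlogT]
      push_cast
      have h2 : 0 ≤ ε ^ 2 / 8 * (L / M) := by positivity
      linarith
    exact h1.trans (mul_le_mul_of_nonneg_right hT0 (Real.exp_pos _).le)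
  have hl1 : l ≤ 1 := Real.exp_le_one_iff.2 (by linarith)
  have hit := iterate (μ := μ) (ℱ := ℱ) (A := A) (η := η) (y := L ^ 2) (l := l) hη0.le hη1 (Real.exp_pos _) hl1
    (x := x) (H := H) (D := D) (k := k) (by omega) (ω := ω)
    (fun j hj => g1 H hH2 j (by omega)) hdens hy k le_rfl
  have hTS : (T A x H D k ω : ℝ) ≤ S0 A x H k ω := by exact_mod_cast T_le_S0 x H D k ω
  refine ⟨?_, ?_⟩
  · have h1 : (1 : ℝ) ≤ S0 A x H k ω := by
      have h2 : (1 : ℝ) ≤ L ^ 2 := one_le_pow₀ (by linarith)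
      exact h2.trans (hy.trans (hit.trans hTS))
    exact_mod_cast h1
  · refine le_trans ?_ (hit.trans hTS)
    rw [hqk]
    refine le_trans ?_ (mul_le_mul_of_nonneg_right hT0 (Real.exp_pos _).le)
    rw [← Real.log_le_log_iff (by positivity) (by positivity), Real.log_mul hH0.ne' (Real.exp_pos _).ne',
      Real.log_mul (by positivity) (Real.exp_pos _).ne', Real.log_exp, Real.log_exp, hlogT]
    have h22 : ε ^ 2 / 8 ≤ ε := by
      have h0 := mul_le_mul_of_nonneg_left hε1 hε.le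
      rw [pow_two]
      linarith
    have h2 : ε ^ 2 / 8 * (L / M) ≤ ε * (L / M) := mul_le_mul_of_nonneg_right h22 hLM0.le
    have h3 : 0 ≤ (k : ℝ) * (ε / 2) := by positivity
    have h4 : (k : ℝ) * (Δ + ε) = k * (Δ + ε / 2) + k * (ε / 2) := by ring
    linarith

end Pool.Agent.D0H16.CC
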