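import Mathlib
import Pool.Agent.D0H16.CC.Low

/-! The upper bound for the lengths of chains. -/

set_option autoImplicit false
set_option linter.unusedSectionVars false

namespace Pool.Agent.D0H16.CC

open MeasureTheory Filter Set Pool.Agent.R528.RM
open scoped Topology ENNReal

variable {Ω : Type} {m0 : MeasurableSpace Ω} {μ : Measure Ω} [IsProbabilityMeasure μ]
  {ℱ : Filtration ℕ m0} {A : ℕ → Set Ω}

lemma summ : Summable (fun n : ℕ => 1 / ((n : ℝ) * (Real.log (n + 1)) ^ 2)) := by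
  rw [← summable_condensed_iff_of_nonneg]
  · refine Summable.of_nonneg_of_le (fun k => by positivity) (f := fun k : ℕ => (4 / (Real.log 2) ^ 2) * (1 / ((k : ℝ) + 1) ^ 2)) ?_ ?_
    · intro k
      have h2 : 0 < Real.log 2 := Real.log_pos (by norm_num)
      have h3 : ((k : ℝ) + 1) / 2 * Real.log 2 ≤ Real.log (((2 ^ k : ℕ) : ℝ) + 1) := by
        rcases Nat.eq_zero_or_pos k with h | h
        · subst h
          norm_num
          linarith
        · have h4 : ((k : ℝ)) * Real.log 2 ≤ Real.log (((2 ^ k : ℕ) : ℝ) + 1) := by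
            rw [← Real.log_pow]
            refine Real.log_le_log (by positivity) ?_
            push_cast
            linarith
          refine le_trans (mul_le_mul_of_nonneg_right ?_ h2.le) h4
          have : (1 : ℝ) ≤ k := by exact_mod_cast h
          linarith
      have h4 : 0 < ((k : ℝ) + 1) / 2 * Real.log 2 := by positivity
      have h5 : (((k : ℝ) + 1) / 2 * Real.log 2) ^ 2 ≤ (Real.log (((2 ^ k : ℕ) : ℝ) + 1)) ^ 2 :=
        pow_le_pow_left₀ h4.le h3 2
      have h6 : (2 : ℝ) ^ k * (1 / ((2 ^ k : ℕ) * (Real.log (((2 ^ k : ℕ) : ℝ) + 1)) ^ 2)) =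
          1 / (Real.log (((2 ^ k : ℕ) : ℝ) + 1)) ^ 2 := by
        push_cast
        field_simp
      rw [h6]
      refine (one_div_le_one_div_of_le (by positivity) h5).trans (le_of_eq ?_)
      field_simp
      norm_num
    · refine Summable.mul_left _ ?_
      have := (summable_nat_add_iff (f := fun n : ℕ => 1 / (n : ℝ) ^ 2) 1).2
        (Real.summable_one_div_nat_pow.2 (by norm_num))
      simpa using this
  · intro n; positivity
  · intro m n hm hmn
    have hm' : (0 : ℝ) < m := by exact_mod_cast hm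
    have h1 : 0 < Real.log ((m : ℝ) + 1) := Real.log_pos (by linarith)
    have h2 : Real.log ((m : ℝ) + 1) ≤ Real.log ((n : ℝ) + 1) := by
      refine Real.log_le_log (by positivity) ?_
      have : (m : ℝ) ≤ n := by exact_mod_cast hmn
      linarith
    refine one_div_le_one_div_of_le (by positivity) ?_
    refine mul_le_mul (by exact_mod_cast hmn) (pow_le_pow_left₀ h1.le h2 2) (by positivity) (by positivity)

lemma tmono2 {n : ℕ} (hn : 1 ≤ n) : StrictMono (fun i : ℕ => 2 ^ i * n) := fun a b h => by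
  have h1 : 2 ^ a < 2 ^ b := Nat.pow_lt_pow_right (by norm_num) h
  exact Nat.mul_lt_mul_of_pos_right h1 hn

/-- the length beyond which there are no chains at `n` -/
noncomputable def Kx (w : ℕ → ℝ) (C ε : ℝ) (n : ℕ) : ℕ := ⌊Real.log n / (Del w C n - ε)⌋₊ + 1

/-- the exceptional event -/
def Ev (μ : Measure Ω) (ℱ : Filtration ℕ m0) (A : ℕ → Set Ω) (w : ℕ → ℝ) (C ε : ℝ) (n : ℕ) : Set Ω :=
  {ω | ∀ i < Kx w C ε n, ω ∈ A (2 ^ i * n + 1) ∧ dens μ ℱ A (2 ^ i * n) ω ≤ Real.exp (-(Del w C n - ε / 2))}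

lemma Ev_le (hA : ∀ n, MeasurableSet[ℱ n] (A n)) {w : ℕ → ℝ}
    (hw1 : Tendsto (fun n : ℕ => Real.log (w n) / Real.log (Real.log n)) atTop (𝓝 0))
    {C ε : ℝ} (hε : 0 < ε) (hε1 : ε ≤ 1) :
    ∀ᶠ n : ℕ in atTop, μ.real (Ev μ ℱ A w C ε n) ≤ 1 / ((n : ℝ) * (Real.log (n + 1)) ^ 2) := by
  filter_upwards [Del_asymp hw1 C (show (0 : ℝ) < 1 / 2 by norm_num), eventually_ge_atTop 3,
    LL_small 2 (a := ε / 12) (by positivity), tLL.eventually_ge_atTop 4, tL.eventually_ge_atTop 4]
    with n h1 h2 h3 h4 h5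
  set L : ℝ := Real.log n with hL
  set M : ℝ := Real.log L with hM
  set g : ℝ := Del w C n with hg
  set K : ℕ := Kx w C ε n with hK
  have hn0 : (0 : ℝ) < n := by exact_mod_cast (by omega : 0 < n)
  have hn3 : (3 : ℝ) ≤ n := by exact_mod_cast h2
  have hgε : 0 < g - ε := by linarith [h1.1]
  have hg2 : g - ε ≤ 2 * M := by linarith [h1.2]
  have hKlt : L / (g - ε) < K := by
    rw [hK]
    unfold Kx
    push_cast
    exact Nat.lt_floor_add_one _
  have hK1 : L < K * (g - ε) := by rwa [div_lt_iff₀ hgε] at hKlt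
  have hK2 : L ≤ K * (2 * M) := by
    refine hK1.le.trans (mul_le_mul_of_nonneg_left hg2 (Nat.cast_nonneg _))
  have h6 := allin (μ := μ) (ℱ := ℱ) (A := A) hA (tmono2 (n := n) (by omega))
    (Real.exp_pos (-(g - ε / 2))).le K
  refine h6.trans ?_
  rw [← Real.exp_nat_mul]
  have h7 : 3 * M ≤ K * (ε / 2) := by
    have h8 : 6 / ε * M ≤ K := by
      have h9 : 12 / ε * M ^ 2 ≤ L := by
        have := mul_le_mul_of_nonneg_left h3 (show 0 ≤ 12 / ε by positivity)
        have e : 12 / ε * (ε / 12 * L) = L := by field_simp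
        linarith
      have h10 : (6 / ε * M) * (2 * M) ≤ K * (2 * M) := by
        refine le_trans (le_of_eq ?_) (h9.trans hK2)
        ring
      exact le_of_mul_le_mul_right h10 (by linarith)
    have := mul_le_mul_of_nonneg_right h8 (show 0 ≤ ε / 2 by positivity)
    have e : 6 / ε * M * (ε / 2) = 3 * M := by field_simp; norm_num
    linarith
  have h8 : (K : ℝ) * -(g - ε / 2) ≤ -(L + 3 * M) := by
    have e : (K : ℝ) * -(g - ε / 2) = -(K * (g - ε)) - K * (ε / 2) := by ring
    rw [e]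
    linarith
  refine (Real.exp_le_exp.2 h8).trans ?_
  rw [Real.exp_neg, Real.exp_add, one_div]
  have hLpos : 0 < L := by linarith
  have e1 : Real.exp L = n := Real.exp_log hn0
  have e2 : Real.exp (3 * M) = L ^ 3 := by
    rw [show 3 * M = Real.log (L ^ 3) by rw [Real.log_pow, hM]; norm_num, Real.exp_log (by positivity)]
  rw [e1, e2]
  have hln : Real.log ((n : ℝ) + 1) ≤ 2 * L := by
    have h9 : (n : ℝ) + 1 ≤ (n : ℝ) ^ 2 := by nlinarith
    have := Real.log_le_log (by positivity) h9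
    rw [Real.log_pow] at this
    exact_mod_cast this
  have hln0 : 0 < Real.log ((n : ℝ) + 1) := Real.log_pos (by linarith)
  refine inv_anti₀ (by positivity) (mul_le_mul_of_nonneg_left ?_ hn0.le)
  calc (Real.log ((n : ℝ) + 1)) ^ 2 ≤ (2 * L) ^ 2 := pow_le_pow_left₀ hln0.le hln 2
    _ = 4 * L ^ 2 := by ring
    _ ≤ L * L ^ 2 := mul_le_mul_of_nonneg_right h5 (sq_nonneg _)
    _ = L ^ 3 := by ring

/-- at every large start the chain is short -/
theorem upper_ptw (hA : ∀ n, MeasurableSet[ℱ n] (A n))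
    {w : ℕ → ℝ} (hw0 : ∀ n, 0 < w n)
    (hw1 : Tendsto (fun n : ℕ => Real.log (w n) / Real.log (Real.log n)) atTop (𝓝 0))
    (hw2 : ∀ ε : ℝ, 0 < ε → ∃ δ : ℝ, 0 < δ ∧ ∀ᶠ x : ℕ in atTop, ∀ m : ℕ, x ≤ m → (m : ℝ) ≤ (x : ℝ) ^ (1 + δ) →
      |Real.log (w m) - Real.log (w x)| ≤ ε)
    {C : ℝ} (hC : 0 < C)
    (hup : ∀ᵐ ω ∂μ, ∀ᶠ n : ℕ in atTop, dens μ ℱ A n ω ≤ C * w n / Real.log n)
    {ε : ℝ} (hε : 0 < ε) (hε1 : ε ≤ 1) :
    ∀ᵐ ω ∂μ, ∀ᶠ n : ℕ in atTop, ∀ k : ℕ, Ch A n k ω → k * (Del w C n - ε) ≤ Real.log n := by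
  obtain ⟨δ, hδ, hδw⟩ := hw2 (ε / 2) (by positivity)
  filter_upwards [bc_real (μ := μ) summ (Ev_le (μ := μ) (ℱ := ℱ) hA hw1 (C := C) hε hε1), hup] with ω hω1 hω2
  obtain ⟨N, hN⟩ := eventually_atTop.1 hω2
  filter_upwards [hω1, hδw, Del_asymp hw1 C (show (0 : ℝ) < 1 / 2 by norm_num), eventually_ge_atTop N,
    eventually_ge_atTop 3, tLL.eventually_ge_atTop (4 / δ + 4), tL.eventually_ge_atTop (2 / δ + 4)]
    with n h1 h2 h3 h4 h5 h6 h7 k hk
  by_contra hcon
  rw [not_le] at hcon
  set L : ℝ := Real.log n with hL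
  set M : ℝ := Real.log L with hM
  set g : ℝ := Del w C n with hg
  have hδ4 : 0 < 4 / δ := by positivity
  have hδ2 : 0 < 2 / δ := by positivity
  have hn0 : (0 : ℝ) < n := by exact_mod_cast (by omega : 0 < n)
  have hgε : M / 4 ≤ g - ε := by linarith [h3.1]
  have hgε0 : 0 < g - ε := by linarith
  have hL0 : 0 < L := by linarith
  have hKk : Kx w C ε n ≤ k := by
    unfold Kx
    rw [Nat.succ_le_iff, Nat.floor_lt (by positivity), div_lt_iff₀ hgε0]
    exact hcon
  apply h1
  intro i hi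
  refine ⟨hk i (by omega), ?_⟩
  have hi1 : (i : ℝ) ≤ L / (g - ε) := by
    unfold Kx at hi
    have : i ≤ ⌊Real.log n / (Del w C n - ε)⌋₊ := by omega
    exact (Nat.le_floor_iff (by positivity)).1 this
  have hi2 : (i : ℝ) ≤ δ * L := by
    refine hi1.trans ?_
    rw [div_le_iff₀ hgε0]
    have h8 : 1 / δ ≤ g - ε := by
      have e : 1 / δ = (4 / δ) / 4 := by ring
      rw [e]; linarith
    have h9 : 1 ≤ δ * (g - ε) := by
      have := mul_le_mul_of_nonneg_left h8 hδ.le
      rwa [mul_one_div_cancel hδ.ne'] at this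
    have := mul_le_mul_of_nonneg_left h9 hL0.le
    linarith
  set m : ℕ := 2 ^ i * n with hm
  have hmn : n ≤ m := by
    have : 1 ≤ 2 ^ i := Nat.one_le_two_pow
    calc n = 1 * n := (one_mul n).symm
      _ ≤ m := Nat.mul_le_mul_right _ this
  have hm0 : (0 : ℝ) < m := by exact_mod_cast (by omega : 0 < m)
  have hm1 : (m : ℝ) ≤ (n : ℝ) ^ (1 + δ) := by
    rw [← Real.log_le_log_iff hm0 (by positivity), Real.log_rpow hn0, hm]
    push_cast
    rw [Real.log_mul (by positivity) hn0.ne', Real.log_pow]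
    have h6 : Real.log 2 ≤ 1 := by have := Real.log_two_lt_d9; linarith
    have h7 : (i : ℝ) * Real.log 2 ≤ i * 1 := mul_le_mul_of_nonneg_left h6 (Nat.cast_nonneg _)
    linarith
  have h8 := hN m (by omega)
  refine h8.trans ?_
  have h9 := h2 m hmn hm1
  have hlm : L ≤ Real.log m := Real.log_le_log hn0 (by exact_mod_cast hmn)
  have hlmp : 0 < Real.log m := by linarith
  have hwm := hw0 m
  rw [← Real.log_le_log_iff (by positivity) (Real.exp_pos _), Real.log_exp,
      Real.log_div (by positivity) hlmp.ne', Real.log_mul hC.ne' hwm.ne']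
  have h10 : M ≤ Real.log (Real.log m) := Real.log_le_log hL0 hlm
  have h11 := (abs_le.1 h9).2
  have h12 : g = M - Real.log (w n) - Real.log C := rfl
  linarith

lemma log_div_mono {s t : ℝ} (ht : Real.exp 1 ≤ t) (hts : t ≤ s) : t / Real.log t ≤ s / Real.log s := by
  have h1 := Real.log_div_self_antitoneOn (a := t) (b := s) ht (ht.trans hts) hts
  simp only at h1
  have he : (1 : ℝ) < Real.exp 1 := by
    have := Real.exp_one_gt_d9
    linarith
  have ht0 : 0 < t := by linarith
  have hs0 : 0 < s := by linarith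
  have hlt : 0 < Real.log t := Real.log_pos (by linarith)
  have hls : 0 < Real.log s := Real.log_pos (by linarith)
  rw [div_le_div_iff₀ hs0 ht0] at h1
  rw [div_le_div_iff₀ hlt hls]
  linarith

/-- every start at most `x` -/
theorem upper_main (hA : ∀ n, MeasurableSet[ℱ n] (A n))
    {w : ℕ → ℝ} (hw0 : ∀ n, 0 < w n)
    (hw1 : Tendsto (fun n : ℕ => Real.log (w n) / Real.log (Real.log n)) atTop (𝓝 0))
    (hw2 : ∀ ε : ℝ, 0 < ε → ∃ δ : ℝ, 0 < δ ∧ ∀ᶠ x : ℕ in atTop, ∀ m : ℕ, x ≤ m → (m : ℝ) ≤ (x : ℝ) ^ (1 + δ) →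
      |Real.log (w m) - Real.log (w x)| ≤ ε)
    {C : ℝ} (hC : 0 < C)
    (hup : ∀ᵐ ω ∂μ, ∀ᶠ n : ℕ in atTop, dens μ ℱ A n ω ≤ C * w n / Real.log n)
    {ε : ℝ} (hε : 0 < ε) (hε1 : ε ≤ 1) :
    ∀ᵐ ω ∂μ, ∀ᶠ x : ℕ in atTop, ∀ n k : ℕ, 1 ≤ n → n ≤ x → Ch A n k ω →
      k * (Del w C x - 3 * ε) ≤ Real.log x := by
  obtain ⟨δ0, hδ0, hδw⟩ := hw2 ε hε
  set δ : ℝ := min (min δ0 ε) 1 with hδdef
  have hδ : 0 < δ := by rw [hδdef]; positivity
  have hδ0' : δ ≤ δ0 := (min_le_left _ _).trans (min_le_left _ _)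
  have hδε : δ ≤ ε := (min_le_left _ _).trans (min_le_right _ _)
  have hδ1 : δ ≤ 1 := min_le_right _ _
  set τ : ℝ := δ / 8 with hτdef
  have hτ : 0 < τ := by positivity
  have hτ1 : τ ≤ 1 / 8 := by rw [hτdef]; linarith
  filter_upwards [upper_ptw (μ := μ) (ℱ := ℱ) hA hw0 hw1 hw2 hC hup hε hε1] with ω hω
  -- all properties of large `n`
  have hev : ∀ᶠ n : ℕ in atTop, (∀ k : ℕ, Ch A n k ω → k * (Del w C n - ε) ≤ Real.log n) ∧
      (∀ m : ℕ, n ≤ m → (m : ℝ) ≤ (n : ℝ) ^ (1 + δ0) → |Real.log (w m) - Real.log (w n)| ≤ ε) ∧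
      ((1 - τ) * Real.log (Real.log n) ≤ Del w C n - ε) ∧
      (Del w C n ≤ (1 + τ) * Real.log (Real.log n)) ∧ 3 ≤ n ∧ Real.exp 1 ≤ Real.log n ∧
      4 ≤ Real.log (Real.log n) := by
    filter_upwards [hω, hδw, Del_asymp hw1 C (show 0 < τ / 2 by positivity), eventually_ge_atTop 3,
      tL.eventually_ge_atTop (Real.exp 1), tLL.eventually_ge_atTop (2 * ε / τ + 4)] with n h1 h2 h3 h4 h5 h6
    have h7 : 0 ≤ 2 * ε / τ := by positivity
    refine ⟨h1, h2, ?_, ?_, h4, h5, by linarith⟩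
    · have h8 : ε ≤ τ / 2 * Real.log (Real.log n) := by
        have h9 : 2 * ε / τ ≤ Real.log (Real.log n) := by linarith
        rw [div_le_iff₀ hτ] at h9
        linarith
      linarith [h3.1]
    · have h8 : 0 ≤ τ / 2 * Real.log (Real.log n) := by
        have : 0 ≤ Real.log (Real.log n) := by linarith
        positivity
      linarith [h3.2]
  obtain ⟨N, hN⟩ := eventually_atTop.1 hev
  -- chains at bounded starts
  set K1 : ℝ := N + Real.log ((2 : ℝ) ^ N * N + 2) with hK1
  filter_upwards [eventually_ge_atTop N, Del_asymp hw1 C (show (0 : ℝ) < 1 by norm_num),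
    LL_small 1 (a := 1 / (2 * |K1| + 1)) (by positivity), tLL.eventually_ge_atTop (Real.log (1 + δ) / τ + 4),
    tL.eventually_ge_atTop (2 * Real.exp 1)]
    with x hxN hx2 hx3 hx4 hx5 n k hn1 hnx hch
  obtain ⟨-, -, hx6, hx7, hx8, hx9, hx10⟩ := hN x hxN
  set s : ℝ := Real.log x with hs
  set M : ℝ := Real.log s with hM
  have hx0 : (0 : ℝ) < x := by exact_mod_cast (by omega : 0 < x)
  have hs0 : 0 < s := by have := Real.exp_pos 1; linarith
  have hM0 : 0 < M := by linarith
  have hDx : 0 < Del w C x := by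
    have := mul_pos (show 0 < 1 - τ by linarith) hM0
    linarith
  have hk0 : (0 : ℝ) ≤ k := Nat.cast_nonneg _
  -- it suffices to bound `k * Del x`
  rcases lt_or_ge n N with hnN | hnN
  · -- small starts
    have hk1 : (k : ℝ) ≤ K1 := by
      rcases lt_or_ge k N with h | h
      · have h1 : (k : ℝ) ≤ N := by exact_mod_cast h.le
        have h2 : 0 ≤ Real.log ((2 : ℝ) ^ N * N + 2) := Real.log_nonneg (by
          have : (0 : ℝ) ≤ (2 : ℝ) ^ N * N := by positivity
          linarith)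
        rw [hK1]; linarith
      · set m : ℕ := 2 ^ N * n with hm
        have hmN : N ≤ m := by
          have h1 : N < 2 ^ N := Nat.lt_two_pow_self
          calc N ≤ 2 ^ N * 1 := by omega
            _ ≤ m := Nat.mul_le_mul_left _ hn1
        have hchm : Ch A m (k - N) ω := by
          intro i hi
          have := hch (i + N) (by omega)
          rwa [pow_add, mul_assoc, ← hm] at this
        obtain ⟨q1, -, q3, -, -, q6, q7⟩ := hN m hmN
        have q8 := q1 (k - N) hchm
        have q9 : 1 ≤ Del w C m - ε := by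
          have : (7 / 8 : ℝ) * 4 ≤ (1 - τ) * Real.log (Real.log m) :=
            mul_le_mul (by linarith) q7 (by norm_num) (by linarith)
          linarith
        have q10 : ((k - N : ℕ) : ℝ) ≤ Real.log m := by
          have := mul_le_mul_of_nonneg_left q9 (Nat.cast_nonneg (α := ℝ) (k - N))
          linarith
        have q11 : Real.log m ≤ Real.log ((2 : ℝ) ^ N * N + 2) := by
          refine Real.log_le_log ?_ ?_
          · have := Real.exp_pos 1
            by_contra hcc
            have h0 : (m : ℝ) = 0 := le_antisymm (not_lt.1 hcc) (Nat.cast_nonneg _)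
            rw [h0, Real.log_zero] at q6
            linarith
          · have h1 : m ≤ 2 ^ N * N := Nat.mul_le_mul_left _ hnN.le
            have h2 : (m : ℝ) ≤ (2 : ℝ) ^ N * N := by exact_mod_cast h1
            linarith
        have q12 : (k : ℝ) = ((k - N : ℕ) : ℝ) + N := by
          have : k = (k - N) + N := by omega
          exact_mod_cast this
        rw [q12, hK1]
        linarith
    have hKabs : K1 ≤ |K1| := le_abs_self _
    rw [pow_one] at hx3
    have h1 : (k : ℝ) * (Del w C x - 3 * ε) ≤ |K1| * (2 * M) := by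
      have h2 : Del w C x - 3 * ε ≤ 2 * M := by linarith [hx2.2]
      calc (k : ℝ) * (Del w C x - 3 * ε) ≤ k * (2 * M) := mul_le_mul_of_nonneg_left h2 hk0
        _ ≤ |K1| * (2 * M) := mul_le_mul_of_nonneg_right (hk1.trans hKabs) (by linarith)
    refine h1.trans ?_
    have h3 : |K1| * (2 * M) ≤ |K1| * (2 * (1 / (2 * |K1| + 1) * s)) :=
      mul_le_mul_of_nonneg_left (by linarith) (abs_nonneg _)
    refine h3.trans ?_
    have h4 : |K1| * (2 * (1 / (2 * |K1| + 1) * s)) = (2 * |K1| / (2 * |K1| + 1)) * s := by ring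
    rw [h4]
    have h5 : 2 * |K1| / (2 * |K1| + 1) ≤ 1 := by
      rw [div_le_one (by positivity)]
      linarith
    calc _ ≤ 1 * s := mul_le_mul_of_nonneg_right h5 hs0.le
      _ = s := one_mul s
  · obtain ⟨q1, q2, q3, -, q5, q6, q7⟩ := hN n hnN
    have hn0 : (0 : ℝ) < n := by exact_mod_cast (by omega : 0 < n)
    set t : ℝ := Real.log n with ht
    have ht0 : 0 < t := by have := Real.exp_pos 1; linarith
    have hts : t ≤ s := Real.log_le_log hn0 (by exact_mod_cast hnx)
    have q8 := q1 k hch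
    rcases le_or_gt (s : ℝ) ((1 + δ) * t) with hcase | hcase
    · -- comparable
      have hxn : (x : ℝ) ≤ (n : ℝ) ^ (1 + δ0) := by
        rw [← Real.log_le_log_iff hx0 (by positivity), Real.log_rpow hn0]
        refine hcase.trans (mul_le_mul_of_nonneg_right (by linarith) ht0.le)
      have h1 := (abs_le.1 (q2 x hnx hxn)).1
      have h2 : M ≤ Real.log (1 + δ) + Real.log t := by
        rw [← Real.log_mul (by positivity) ht0.ne']
        exact Real.log_le_log hs0 hcase
      have h3 : Real.log (1 + δ) ≤ ε := by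
        have := Real.log_le_sub_one_of_pos (show (0 : ℝ) < 1 + δ by positivity)
        linarith
      have h4 : Del w C x - 3 * ε ≤ Del w C n - ε := by
        unfold Del
        rw [← hs, ← ht, ← hM]
        linarith
      calc (k : ℝ) * (Del w C x - 3 * ε) ≤ k * (Del w C n - ε) := mul_le_mul_of_nonneg_left h4 hk0
        _ ≤ t := q8
        _ ≤ s := hts
    · -- much smaller
      have hlt : 0 < Real.log t := by linarith
      have h1 : (k : ℝ) * ((1 - τ) * Real.log t) ≤ t := (mul_le_mul_of_nonneg_left q3 hk0).trans q8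
      -- `t / log t ≤ s' / log s'`, `s' = s / (1 + δ)`
      have h2 : t / Real.log t ≤ (s / (1 + δ)) / Real.log (s / (1 + δ)) := by
        refine log_div_mono q6 ?_
        rw [le_div_iff₀ (by positivity)]
        linarith
      have h3 : (1 - τ) * M ≤ Real.log (s / (1 + δ)) := by
        rw [Real.log_div hs0.ne' (by positivity)]
        have : Real.log (1 + δ) / τ ≤ M := by linarith
        rw [div_le_iff₀ hτ] at this
        linarith
      have hτ' : 0 < 1 - τ := by linarith
      have h4 : 0 < (1 - τ) * M := mul_pos hτ' hM0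
      have h5 : (s / (1 + δ)) / Real.log (s / (1 + δ)) ≤ (s / (1 + δ)) / ((1 - τ) * M) :=
        div_le_div_of_nonneg_left (by positivity) h4 h3
      have h6 : (k : ℝ) * (1 - τ) ≤ (s / (1 + δ)) / ((1 - τ) * M) := by
        have : (k : ℝ) * (1 - τ) ≤ t / Real.log t := by
          rw [le_div_iff₀ hlt]; linarith
        exact this.trans (h2.trans h5)
      have h7 : (k : ℝ) * (1 - τ) * ((1 - τ) * M) * (1 + δ) ≤ s := by
        rw [le_div_iff₀ h4, le_div_iff₀ (by positivity)] at h6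
        exact h6
      have h8 : (1 + τ) ≤ (1 - τ) * (1 - τ) * (1 + δ) := by
        have e : δ = 8 * τ := by rw [hτdef]; ring
        rw [e]
        have e2 : (1 - τ) * (1 - τ) * (1 + 8 * τ) = 1 + 6 * τ - 15 * τ ^ 2 + 8 * τ ^ 3 := by ring
        rw [e2]
        have h9 : τ ^ 2 ≤ 1 / 8 * τ := by rw [pow_two]; exact mul_le_mul_of_nonneg_right hτ1 hτ.le
        have h10 : 0 ≤ τ ^ 3 := by positivity
        linarith
      have h9 : Del w C x - 3 * ε ≤ (1 + τ) * M := by linarith
      have hkM : 0 ≤ (k : ℝ) * M := by positivity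
      calc (k : ℝ) * (Del w C x - 3 * ε) ≤ k * ((1 + τ) * M) := mul_le_mul_of_nonneg_left h9 hk0
        _ = (1 + τ) * (k * M) := by ring
        _ ≤ ((1 - τ) * (1 - τ) * (1 + δ)) * (k * M) := mul_le_mul_of_nonneg_right h8 hkM
        _ = (k : ℝ) * (1 - τ) * ((1 - τ) * M) * (1 + δ) := by ring
        _ ≤ s := h7

end Pool.Agent.D0H16.CC
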